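import Mathlib
import Pool.Graph.R_seed8.W757.RD.Main
import Pool.Graph.R_seed8.W376.RQTRAP

/-! Points which enter the marked discs are attracted. -/

set_option autoImplicit false

open Topology Filter Metric Set MeasureTheory
open Pool.Agent.H790R3.RB (CV hF cr ND wr rt Ix yx yc sp HypTop Attd Sink pr hc)
open Pool.Agent.W757.RD
open Pool.Agent.W440.RE.TOP
open scoped OnePoint

namespace Pool.Agent.Helper38.AM

variable {d n s : ℕ}

theorem sink_marked (S : Sys d n s) {x : Fin n → ℂ} (hx : x ∈ S.U) (k : Fin s) :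
    Sink (sp (S.co x)) (S.per k) (pr (S.cht k x 0)) := by
  have hd : 1 ≤ d := le_trans (by norm_num) S.hd
  obtain ⟨hcont, hf, -⟩ := Pool.Agent.H790R3.RB.SP d (S.co x) hd (S.nd x hx)
  refine ⟨S.hper k, ?_, Dk S k x, Dk_nhds S k x, ?_⟩
  · obtain ⟨z', h1, h2⟩ := iter_chart S hx k hf 1 0 (by simpa using S.hr₀ k)
    have h3 : z' = 0 := by simpa using h1
    rw [h3, mul_one] at h2
    exact h2
  · intro V hV
    have hc : Continuous fun z : ℂ => pr (S.cht k x z) := by
      have h1 : (fun z : ℂ => pr (S.cht k x z)) = fun z : ℂ => ((S.b k x + z : ℂ) : OnePoint ℂ) := by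
        funext z
        exact pr_some S x k z
      rw [h1]
      exact OnePoint.continuous_coe.comp (continuous_const.add continuous_id)
    have h1 : (fun z : ℂ => pr (S.cht k x z)) ⁻¹' V ∈ 𝓝 (0 : ℂ) := hc.continuousAt hV
    obtain ⟨δ, hδ, hb⟩ := Metric.mem_nhds_iff.1 h1
    have h3 : Tendsto (fun j : ℕ => S.θ ^ j * S.r₀ k) atTop (𝓝 0) := by
      have := (tendsto_pow_atTop_nhds_zero_of_lt_one S.hθ0 S.hθ).mul_const (S.r₀ k)
      simpa using this
    filter_upwards [h3.eventually_lt_const hδ] with j hj w hw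
    obtain ⟨z, hz, rfl⟩ := hw
    obtain ⟨z', h4, h5⟩ := iter_chart S hx k hf j z hz
    rw [h5]
    apply hb
    rw [mem_ball, dist_zero_right]
    refine lt_of_le_of_lt (h4.trans ?_) hj
    exact mul_le_mul_of_nonneg_left hz.le (pow_nonneg S.hθ0 _)

/-- Points which enter the marked discs are attracted. -/
theorem inC_attd (S : Sys d n s) {x : Fin n → ℂ} (hx : x ∈ S.U) {k : Fin s} {m : ℕ} {p : ℂ × ℂ}
    (hp : p ≠ 0) (h : S.InC k x ((S.F x)^[m] p)) : Attd (sp (S.co x)) (pr p) := by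
  have hd : 1 ≤ d := le_trans (by norm_num) S.hd
  obtain ⟨hcont, hf, -⟩ := Pool.Agent.H790R3.RB.SP d (S.co x) hd (S.nd x hx)
  apply Pool.Agent.W376.RQTRAP.attd_of_iter hcont (m := m)
  obtain ⟨a, z, ha, hz, hm⟩ := h
  have hm' : (hF (S.co x))^[m] p = a • S.cht k x z := hm
  rw [hf p hp m, hm', pr_smul ha]
  refine ⟨S.per k, pr (S.cht k x 0), sink_marked S hx k, ?_⟩
  have hc : Continuous fun z : ℂ => pr (S.cht k x z) := by
    have h1 : (fun z : ℂ => pr (S.cht k x z)) = fun z : ℂ => ((S.b k x + z : ℂ) : OnePoint ℂ) := by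
      funext z
      exact pr_some S x k z
    rw [h1]
    exact OnePoint.continuous_coe.comp (continuous_const.add continuous_id)
  choose z' h1 h2 using fun j => iter_chart S hx k hf j z hz
  have h3 : Tendsto z' atTop (𝓝 0) := by
    refine squeeze_zero_norm h1 ?_
    have h4 := (tendsto_pow_atTop_nhds_zero_of_lt_one S.hθ0 S.hθ).mul_const ‖z‖
    rwa [zero_mul] at h4
  have h5 := (hc.tendsto 0).comp h3
  refine h5.congr fun j => ?_
  exact (h2 j).symm

theorem pr_one (ζ : ℂ) : pr (ζ, 1) = (ζ : OnePoint ℂ) := by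
  unfold pr
  rw [if_neg one_ne_zero, div_one]

/-- Points which are not attracted do not enter the marked discs. -/
theorem nonatt_sub (S : Sys d n s) {x : Fin n → ℂ} (hx : x ∈ S.U) :
    {ζ : ℂ | ¬ Attd (sp (S.co x)) (ζ : OnePoint ℂ)} ⊆ S.KS x := by
  intro ζ hζ k m hin
  apply hζ
  have h1 := inC_attd S hx (p := (ζ, 1)) (by simp) hin
  rwa [pr_one] at h1

/-- The marked base points are attracted. -/
theorem base_attd (S : Sys d n s) {A : Finset (Pt d)} {ks : Pt d → Fin s} {ls : Pt d → ℕ}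
    {y : Ix d n s → ℂ} (hy : S.Adm A ks ls y) {j : Fin 2} (hj : Sum.inr j ∈ A) :
    Attd (sp (S.co (yx y))) (bz j : OnePoint ℂ) := by
  obtain ⟨-, -, N, hN⟩ := hy.att _ hj
  have e : pc y (Sum.inr j) = bz j := rfl
  rw [e, ← Function.iterate_add_apply] at hN
  have h1 := inC_attd S hy.xU (p := (bz j, 1)) (by simp) hN
  rwa [pr_one] at h1

end Pool.Agent.Helper38.AM
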