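import Mathlib
import Pool.Graph.R_seed8.H790R3.RB.TCONT

/-! The final computation, with a subharmonic term. -/

set_option autoImplicit false

open Topology Filter Metric Set MeasureTheory
open Pool.Agent.H790R3.RB.CONT Pool.Agent.H713R3.ZA

namespace Pool.Agent.Helper38.AM

/-- The final computation: no point can be minimal if the disc inequality holds. -/
theorem contPhi (P : Type) [Fintype P] (τ ρ c₀ δ a : ℝ) (f : P → ℂ → ℂ) (w : P → ℂ) (g : ℂ → ℂ)
    (A : ℝ → ℝ) (F : ℝ → ℝ) (F₀ : ℝ)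
    (hρ : 0 < ρ) (hτ : ρ < τ) (hc : 0 < c₀) (hδ : 0 < δ)
    (hf : ∀ i, DifferentiableOn ℂ (f i) (ball 0 τ))
    (hg : DifferentiableOn ℂ g (ball 0 τ)) (hg0 : ∀ t ∈ ball (0 : ℂ) τ, g t ≠ 0)
    (hne : ∃ θ : ℝ, ∃ i, f i (circleMap 0 ρ θ) ≠ f i 0) (hA : ∀ θ, 0 ≤ A θ)
    (hF : Continuous F) (hF0 : 2 * Real.pi * F₀ ≤ ∫ θ in (0 : ℝ)..(2 * Real.pi), F θ)
    (hm : ∀ θ : ℝ, a + (c₀ / 2 * ∑ i, ‖f i 0 - w i‖ ^ 2 - F₀) - δ * Real.log ‖g 0‖ ≤
      A θ + (c₀ / 2 * ∑ i, ‖f i (circleMap 0 ρ θ) - w i‖ ^ 2 - F θ) -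
        δ * Real.log ‖g (circleMap 0 ρ θ)‖)
    (hq : ∀ q : ℝ → ℝ, Continuous q → (∀ θ, 0 ≤ q θ ∧ q θ ≤ A θ) →
      ∫ θ in (0 : ℝ)..(2 * Real.pi), (q θ + c₀ * ∑ i, ‖f i (circleMap 0 ρ θ) - f i 0‖ ^ 2) ≤
        2 * Real.pi * a) : False := by
  obtain ⟨θ₀, i₀, hne⟩ := hne
  have hpi := Real.pi_pos
  set G : ℝ → ℝ := fun θ => ∑ i, ‖f i (circleMap 0 ρ θ) - f i 0‖ ^ 2 with hG
  set K : ℝ → ℝ := fun θ => ∑ i, ‖f i (circleMap 0 ρ θ) - w i‖ ^ 2 with hK
  set L : ℝ → ℝ := fun θ => Real.log ‖g (circleMap 0 ρ θ)‖ with hL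
  have cG : Continuous G := sum_cont hρ hτ hf (fun i => f i 0)
  have cK : Continuous K := sum_cont hρ hτ hf w
  have cL : Continuous L := log_cont hρ hτ hg hg0
  have iK : ∫ θ in (0 : ℝ)..(2 * Real.pi), K θ = 2 * Real.pi * ∑ i, ‖f i 0 - w i‖ ^ 2 +
      ∫ θ in (0 : ℝ)..(2 * Real.pi), G θ := sum_int hρ hτ hf w
  have iL : ∫ θ in (0 : ℝ)..(2 * Real.pi), L θ = 2 * Real.pi * Real.log ‖g 0‖ :=
    circ_log hρ hτ hg hg0
  set B : ℝ := a + (c₀ / 2 * ∑ i, ‖f i 0 - w i‖ ^ 2 - F₀) - δ * Real.log ‖g 0‖ with hB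
  set m : ℝ → ℝ := fun θ => (B - c₀ / 2 * K θ + δ * L θ) + F θ with hmdef
  have cm : Continuous m := ((continuous_const.sub (continuous_const.mul cK)).add
    (continuous_const.mul cL)).add hF
  have im : 2 * Real.pi * a - c₀ / 2 * (∫ θ in (0 : ℝ)..(2 * Real.pi), G θ) ≤
      ∫ θ in (0 : ℝ)..(2 * Real.pi), m θ := by
    have i1 : IntervalIntegrable (fun θ : ℝ => B - c₀ / 2 * K θ) volume 0 (2 * Real.pi) :=
      (continuous_const.sub (continuous_const.mul cK)).intervalIntegrable _ _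
    have i2 : IntervalIntegrable (fun θ : ℝ => δ * L θ) volume 0 (2 * Real.pi) :=
      (continuous_const.mul cL).intervalIntegrable _ _
    have i12 : IntervalIntegrable (fun θ : ℝ => B - c₀ / 2 * K θ + δ * L θ) volume 0
        (2 * Real.pi) := i1.add i2
    have i3 : IntervalIntegrable (fun _ : ℝ => B) volume 0 (2 * Real.pi) :=
      continuous_const.intervalIntegrable _ _
    have i4 : IntervalIntegrable (fun θ : ℝ => c₀ / 2 * K θ) volume 0 (2 * Real.pi) :=
      (continuous_const.mul cK).intervalIntegrable _ _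
    simp only [hmdef]
    rw [intervalIntegral.integral_add i12 (hF.intervalIntegrable _ _),
      intervalIntegral.integral_add i1 i2, intervalIntegral.integral_sub i3 i4,
      intervalIntegral.integral_const_mul, intervalIntegral.integral_const_mul,
      intervalIntegral.integral_const, iK, iL, smul_eq_mul, sub_zero, hB]
    linarith
  have h1 := hq (fun θ => max (m θ) 0) (cm.max continuous_const) (fun θ => by
    refine ⟨le_max_right _ _, max_le ?_ (hA θ)⟩
    have := hm θ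
    simp only [hmdef, hB, hK, hL]
    linarith)
  have h2 : ∫ θ in (0 : ℝ)..(2 * Real.pi), (m θ + c₀ * G θ) ≤
      ∫ θ in (0 : ℝ)..(2 * Real.pi), (max (m θ) 0 + c₀ * G θ) := by
    apply intervalIntegral.integral_mono_on (by positivity)
    · exact (cm.add (continuous_const.mul cG)).intervalIntegrable _ _
    · exact ((cm.max continuous_const).add (continuous_const.mul cG)).intervalIntegrable _ _
    · intro θ _
      have := le_max_left (m θ) 0
      linarith
  have h3 : ∫ θ in (0 : ℝ)..(2 * Real.pi), (m θ + c₀ * G θ) =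
      (∫ θ in (0 : ℝ)..(2 * Real.pi), m θ) + c₀ * ∫ θ in (0 : ℝ)..(2 * Real.pi), G θ := by
    have i5 : IntervalIntegrable (fun θ : ℝ => c₀ * G θ) volume 0 (2 * Real.pi) :=
      (continuous_const.mul cG).intervalIntegrable _ _
    rw [intervalIntegral.integral_add (cm.intervalIntegrable _ _) i5,
      intervalIntegral.integral_const_mul]
  have hper : Function.Periodic G (2 * Real.pi) := by
    intro θ
    simp only [hG]
    rw [periodic_circleMap 0 ρ θ]
  have hGpos : 0 < ∫ θ in (0 : ℝ)..(2 * Real.pi), G θ := by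
    have h4 := hper.intervalIntegral_add_eq 0 θ₀
    rw [zero_add] at h4
    rw [h4]
    apply intervalIntegral.integral_pos (by linarith) cG.continuousOn
    · intro θ _
      exact Finset.sum_nonneg fun i _ => by positivity
    · refine ⟨θ₀, ⟨le_rfl, by linarith⟩, ?_⟩
      apply Finset.sum_pos' (fun i _ => by positivity)
      refine ⟨i₀, Finset.mem_univ _, ?_⟩
      have : 0 < ‖f i₀ (circleMap 0 ρ θ₀) - f i₀ 0‖ := norm_pos_iff.2 (sub_ne_zero.2 hne)
      positivity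
  have h5 := h2.trans h1
  rw [h3] at h5
  have h6 : 0 < c₀ * ∫ θ in (0 : ℝ)..(2 * Real.pi), G θ := mul_pos hc hGpos
  linarith

end Pool.Agent.Helper38.AM
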