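import Mathlib
import Pool.Graph.R_seed8.W973.REUG
import Pool.Graph.R_seed8.W366.REDIaux

/-! The uniform gain when the set has mass bounded from below, part 1: the relation for the limits
holds on a set of positive measure, hence almost everywhere. -/

set_option autoImplicit false

open Topology Filter Metric Set MeasureTheory Polynomial
open Pool.Agent.H790R3.RB (CV hF cr ND wr rt pol)
open Pool.Agent.W757.QR (nu de fx fr d1 d2 wn hv hd RM pre)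
open Pool.Agent.W757.RD
open Pool.Agent.W40.RQAF (fr_meas d1_meas wn_ne Q_ne af_mem)
open Pool.Agent.W973.UG

namespace Pool.Agent.Helper38.AM

variable {d : ℕ}

/-- the points at which the formulas may fail -/
def Bad (β : ℝ) (x₀ : CV d) : Set ℂ :=
  {z : ℂ | z = 0 ∨ z = 1 ∨ (de x₀).eval z = 0 ∨ d1 (nu x₀) (de x₀) z = 0 ∨ chi β x₀ z = 0}

theorem Bad_finite {β : ℝ} {x₀ : CV d} (hR₀ : RM d (nu x₀) (de x₀))
    (hchi : {z : ℂ | chi β x₀ z = 0}.Finite) : (Bad β x₀).Finite := by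
  have h1 : ({z : ℂ | (de x₀).eval z = 0}).Finite := by
    refine (de x₀).roots.toFinset.finite_toSet.subset ?_
    intro z hz
    rw [Finset.mem_coe, Multiset.mem_toFinset, mem_roots (Q_ne hR₀)]
    exact hz
  have h2 := (((finite_singleton (0 : ℂ)).union (finite_singleton (1 : ℂ))).union h1).union
    ((d1_zero_finite hR₀).union hchi)
  refine h2.subset ?_
  rintro z (h | h | h | h | h)
  · exact Or.inl (Or.inl (Or.inl h))
  · exact Or.inl (Or.inl (Or.inr h))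
  · exact Or.inl (Or.inr h)
  · exact Or.inr (Or.inl h)
  · exact Or.inr (Or.inr h)

theorem not_bad {β : ℝ} {x₀ : CV d} {z : ℂ} (h : z ∉ Bad β x₀) :
    z ≠ 0 ∧ z ≠ 1 ∧ (de x₀).eval z ≠ 0 ∧ d1 (nu x₀) (de x₀) z ≠ 0 ∧ chi β x₀ z ≠ 0 :=
  ⟨fun k => h (Or.inl k), fun k => h (Or.inr (Or.inl k)),
    fun k => h (Or.inr (Or.inr (Or.inl k))),
    fun k => h (Or.inr (Or.inr (Or.inr (Or.inl k)))),
    fun k => h (Or.inr (Or.inr (Or.inr (Or.inr k))))⟩

/-- The relation for the limits at one point. -/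
theorem point_rel {β : ℝ} {x : ℕ → CV d} {x₀ : CV d}
    (hx : Tendsto x atTop (𝓝 x₀)) {ξ : ℕ → CV d} {ξ₀ : CV d} (hξ : Tendsto ξ atTop (𝓝 ξ₀))
    {W K : ℕ → Set ℂ} {v : ℕ → ℂ → ℂ} (hW : ∀ n, IsOpen (W n)) (hKW : ∀ n, K n ⊆ W n)
    (hv : ∀ n, DifferentiableOn ℂ (v n) (W n))
    (hrel : ∀ n, ∀ z ∈ W n, (de (x n)).eval z ≠ 0 → fx (x n) z ∈ W n →
      v n (fx (x n) z) - d1 (nu (x n)) (de (x n)) z * v n z = et (x n) (ξ n) z)
    {z : ℂ} (zK : ∀ n, z ∈ K n) (k1 : ∀ n, fx (x n) z ∈ K n)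
    (k2 : ∀ n, fx (x n) (fx (x n) z) ∈ K n)
    (b0 : z ∉ Bad β x₀) (b1 : fx x₀ z ∉ Bad β x₀) (b2 : fx x₀ (fx x₀ z) ∉ Bad β x₀)
    (zF : Tendsto (fun n => phi β (K n) (v n) z * ENNReal.ofReal (rho β z)) atTop (𝓝 0))
    (zG : Tendsto (fun n => phi β (K n) (v n) (fx (x n) z) *
      ENNReal.ofReal (rho β (fx (x n) z)) *
      ENNReal.ofReal (‖d1 (nu (x n)) (de (x n)) z‖ ^ 2)) atTop (𝓝 0))
    (zH : Tendsto (fun n => phi β (K n) (v n) (fx (x n) (fx (x n) z)) *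
      ENNReal.ofReal (rho β (fx (x n) (fx (x n) z))) *
      ENNReal.ofReal (‖d1 (nu (x n)) (de (x n)) (fx (x n) z)‖ ^ 2) *
      ENNReal.ofReal (‖d1 (nu (x n)) (de (x n)) z‖ ^ 2)) atTop (𝓝 0)) :
    et x₀ ξ₀ z = uu β x₀ ξ₀ (fx x₀ z) - d1 (nu x₀) (de x₀) z * uu β x₀ ξ₀ z := by
  have g0 := not_bad b0
  have g1 := not_bad b1
  have g2 : fx x₀ (fx x₀ z) ≠ 0 ∧ fx x₀ (fx x₀ z) ≠ 1 := ⟨(not_bad b2).1, (not_bad b2).2.1⟩
  have w0 : Tendsto (fun _ : ℕ => z) atTop (𝓝 z) := tendsto_const_nhds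
  have w1 : Tendsto (fun n => fx (x n) z) atTop (𝓝 (fx x₀ z)) := fx_tend hx w0 g0.2.2.1
  have w2 : Tendsto (fun n => fx (x n) (fx (x n) z)) atTop (𝓝 (fx x₀ (fx x₀ z))) :=
    fx_tend hx w1 g1.2.2.1
  have e0 : Tendsto (fun n => Dv β (v n) z) atTop (𝓝 0) := by
    refine sq_zero (aux_zero (b := fun _ => rho β z) (b₀ := rho β z)
      (F := fun n => phi β (K n) (v n) z * ENNReal.ofReal (rho β z))
      (fun n => by positivity) (fun n => rho_nonneg β z) tendsto_const_nhds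
      (rho_pos β g0.1 g0.2.1) zF ?_)
    refine Eventually.of_forall fun n => ?_
    rw [phi_mem (zK n), ENNReal.ofReal_mul (by positivity)]
  have e1 : Tendsto (fun n => Dv β (v n) (fx (x n) z)) atTop (𝓝 0) := by
    refine sq_zero (aux_zero (b := fun n => rho β (fx (x n) z) *
      ‖d1 (nu (x n)) (de (x n)) z‖ ^ 2) (b₀ := rho β (fx x₀ z) * ‖d1 (nu x₀) (de x₀) z‖ ^ 2)
      (F := fun n => phi β (K n) (v n) (fx (x n) z) *
      ENNReal.ofReal (rho β (fx (x n) z)) *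
      ENNReal.ofReal (‖d1 (nu (x n)) (de (x n)) z‖ ^ 2))
      (fun n => by positivity) (fun n => mul_nonneg (rho_nonneg β _) (by positivity))
      ((rho_tend β w1 g1.1 g1.2.1).mul ((d1_tend hx w0 g0.2.2.1).norm.pow 2))
      (mul_pos (rho_pos β g1.1 g1.2.1) (pow_pos (norm_pos_iff.2 g0.2.2.2.1) 2)) zG ?_)
    refine Eventually.of_forall fun n => ?_
    rw [phi_mem (k1 n), ENNReal.ofReal_mul (by positivity), ENNReal.ofReal_mul (rho_nonneg β _),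
      mul_assoc]
  have e2 : Tendsto (fun n => Dv β (v n) (fx (x n) (fx (x n) z))) atTop (𝓝 0) := by
    refine sq_zero (aux_zero (b := fun n => rho β (fx (x n) (fx (x n) z)) *
      (‖d1 (nu (x n)) (de (x n)) (fx (x n) z)‖ ^ 2 * ‖d1 (nu (x n)) (de (x n)) z‖ ^ 2))
      (b₀ := rho β (fx x₀ (fx x₀ z)) * (‖d1 (nu x₀) (de x₀) (fx x₀ z)‖ ^ 2 *
        ‖d1 (nu x₀) (de x₀) z‖ ^ 2))
      (F := fun n => phi β (K n) (v n) (fx (x n) (fx (x n) z)) *
      ENNReal.ofReal (rho β (fx (x n) (fx (x n) z))) *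
      ENNReal.ofReal (‖d1 (nu (x n)) (de (x n)) (fx (x n) z)‖ ^ 2) *
      ENNReal.ofReal (‖d1 (nu (x n)) (de (x n)) z‖ ^ 2))
      (fun n => by positivity) (fun n => mul_nonneg (rho_nonneg β _) (by positivity))
      ((rho_tend β w2 g2.1 g2.2).mul (((d1_tend hx w1 g1.2.2.1).norm.pow 2).mul
        ((d1_tend hx w0 g0.2.2.1).norm.pow 2)))
      (mul_pos (rho_pos β g2.1 g2.2) (mul_pos (pow_pos (norm_pos_iff.2 g1.2.2.2.1) 2)
        (pow_pos (norm_pos_iff.2 g0.2.2.2.1) 2))) zH ?_)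
    refine Eventually.of_forall fun n => ?_
    rw [phi_mem (k2 n), ENNReal.ofReal_mul (by positivity), ENNReal.ofReal_mul (rho_nonneg β _),
      ENNReal.ofReal_mul (by positivity), mul_assoc, mul_assoc]
  have v0 : Tendsto (fun n => v n z) atTop (𝓝 (uu β x₀ ξ₀ z)) :=
    v_tend hx hξ w0 g0.2.2.1 g0.1 g0.2.1 g1.1 g1.2.1 g0.2.2.2.2 hW hv hrel
      (Eventually.of_forall fun n => hKW n (zK n)) (Eventually.of_forall fun n => hKW n (k1 n))
      e0 e1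
  have v1 : Tendsto (fun n => v n (fx (x n) z)) atTop (𝓝 (uu β x₀ ξ₀ (fx x₀ z))) :=
    v_tend hx hξ w1 g1.2.2.1 g1.1 g1.2.1 g2.1 g2.2 g1.2.2.2.2 hW hv hrel
      (Eventually.of_forall fun n => hKW n (k1 n)) (Eventually.of_forall fun n => hKW n (k2 n))
      e1 e2
  have hL : Tendsto (fun n => v n (fx (x n) z) - d1 (nu (x n)) (de (x n)) z * v n z) atTop
      (𝓝 (uu β x₀ ξ₀ (fx x₀ z) - d1 (nu x₀) (de x₀) z * uu β x₀ ξ₀ z)) :=
    v1.sub ((d1_tend hx w0 g0.2.2.1).mul v0)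
  have hRt : Tendsto (fun n => et (x n) (ξ n) z) atTop (𝓝 (et x₀ ξ₀ z)) :=
    et_tend hx hξ w0 g0.2.2.1
  refine tendsto_nhds_unique hRt (hL.congr' ?_)
  filter_upwards [(de_tend hx w0).eventually_ne g0.2.2.1] with n m3
  exact hrel n z (hKW n (zK n)) m3 (hKW n (k1 n))

/-- The limes superior of sets of mass at least `κ` has mass at least `κ`. -/
theorem limsup_mass {μ : Measure ℂ} (hμ : μ univ < ⊤) {K : ℕ → Set ℂ}
    (hK : ∀ n, MeasurableSet (K n)) {κ : ENNReal} (h : ∀ n, κ ≤ μ (K n)) :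
    κ ≤ μ {z | ∃ᶠ n in atTop, z ∈ K n} := by
  have e : {z | ∃ᶠ n in atTop, z ∈ K n} = ⋂ m : ℕ, ⋃ n ∈ Ici m, K n := by
    ext z
    simp only [mem_ofPred_eq, frequently_atTop, mem_iInter, mem_iUnion, mem_Ici, exists_prop]
  rw [e]
  have hm : ∀ m : ℕ, MeasurableSet (⋃ n ∈ Ici m, K n) := fun m =>
    MeasurableSet.iUnion fun n => MeasurableSet.iUnion fun _ => hK n
  have hanti : Antitone fun m : ℕ => ⋃ n ∈ Ici m, K n := by
    intro a b hab z hz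
    rw [mem_iUnion₂] at hz ⊢
    obtain ⟨n, hn, hz⟩ := hz
    exact ⟨n, le_trans hab hn, hz⟩
  have ht := tendsto_measure_iInter_atTop (μ := μ) (fun m => (hm m).nullMeasurableSet) hanti
    ⟨0, ((measure_mono (subset_univ _)).trans_lt hμ).ne⟩
  refine ge_of_tendsto' ht fun m => (h m).trans (measure_mono ?_)
  intro z hz
  rw [mem_iUnion₂]
  exact ⟨m, le_refl m, hz⟩

/-- Analytic continuation of the relation. -/
theorem rel_cont {β : ℝ} {x₀ ξ₀ : CV d} (hR₀ : RM d (nu x₀) (de x₀))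
    (hchi : {z : ℂ | chi β x₀ z = 0}.Finite)
    (hpos : volume {z : ℂ | et x₀ ξ₀ z = uu β x₀ ξ₀ (fx x₀ z) -
      d1 (nu x₀) (de x₀) z * uu β x₀ ξ₀ z} ≠ 0) :
    ∀ᵐ z : ℂ, et x₀ ξ₀ z = uu β x₀ ξ₀ (fx x₀ z) - d1 (nu x₀) (de x₀) z * uu β x₀ ξ₀ z := by
  have hB := Bad_finite hR₀ hchi
  set V : Set ℂ := {z | z ∉ Bad β x₀ ∧ fx x₀ z ∉ Bad β x₀} with hV
  have hfc : ∀ z : ℂ, z ∉ Bad β x₀ → ContinuousAt (fx x₀) z := fun z hz =>
    (fx_deriv (not_bad hz).2.2.1).continuousAt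
  have hVo : IsOpen V := by
    rw [isOpen_iff_mem_nhds]
    intro z hz
    have h1 : ∀ᶠ w in 𝓝 z, w ∉ Bad β x₀ := hB.isClosed.isOpen_compl.mem_nhds hz.1
    have h2 : ∀ᶠ w in 𝓝 z, fx x₀ w ∉ Bad β x₀ :=
      (hfc z hz.1) (hB.isClosed.isOpen_compl.mem_nhds hz.2)
    exact h1.and h2
  have hVc : Vᶜ.Countable := by
    have h1 : Vᶜ ⊆ Bad β x₀ ∪ ⋃ a ∈ Bad β x₀, ((pre (nu x₀) (de x₀) a : Finset ℂ) : Set ℂ) := by
      intro z hz
      by_cases h : z ∈ Bad β x₀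
      · exact Or.inl h
      · right
        rw [mem_iUnion₂]
        have h2 : fx x₀ z ∈ Bad β x₀ := by
          by_contra h3
          exact hz ⟨h, h3⟩
        refine ⟨fx x₀ z, h2, ?_⟩
        rw [Finset.mem_coe, af_mem hR₀]
        exact ⟨(not_bad h).2.2.1, rfl⟩
    refine (Set.Countable.union hB.countable ?_).mono h1
    exact hB.countable.biUnion fun a _ => (Finset.finite_toSet _).countable
  have hVconn : IsPreconnected V := by
    have h1 : IsConnected (Vᶜᶜ) := hVc.isConnected_compl_of_one_lt_rank (by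
      rw [Complex.rank_real_complex]; norm_num)
    rw [compl_compl] at h1
    exact h1.isPreconnected
  -- differentiability
  have det : ∀ ξ : CV d, ∀ z : ℂ, (de x₀).eval z ≠ 0 → DifferentiableAt ℂ (et x₀ ξ) z := by
    intro ξ z hz
    rw [et_eq]
    exact (hv_deriv hz).differentiableAt
  have hQo : IsOpen {z : ℂ | (de x₀).eval z ≠ 0} :=
    isOpen_ne_fun (de x₀).continuous continuous_const
  have ddet : ∀ z : ℂ, (de x₀).eval z ≠ 0 → DifferentiableAt ℂ (deriv (et x₀ ξ₀)) z := by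
    intro z hz
    have h1 : DifferentiableOn ℂ (et x₀ ξ₀) {z : ℂ | (de x₀).eval z ≠ 0} := fun w hw =>
      (det ξ₀ w hw).differentiableWithinAt
    exact (h1.deriv hQo).differentiableAt (hQo.mem_nhds hz)
  have dd1 : ∀ z : ℂ, (de x₀).eval z ≠ 0 → DifferentiableAt ℂ (d1 (nu x₀) (de x₀)) z :=
    fun z hz => by
      rw [d1_eq]
      exact (hv_deriv hz).differentiableAt
  have dd2 : ∀ z : ℂ, (de x₀).eval z ≠ 0 → DifferentiableAt ℂ (d2 (nu x₀) (de x₀)) z := by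
    intro z hz
    have h1 : DifferentiableOn ℂ (d1 (nu x₀) (de x₀)) {z : ℂ | (de x₀).eval z ≠ 0} := fun w hw =>
      (dd1 w hw).differentiableWithinAt
    have h2 := (h1.deriv hQo).differentiableAt (hQo.mem_nhds hz)
    refine h2.congr_of_eventuallyEq ?_
    filter_upwards [hQo.mem_nhds hz] with w hw
    rw [d1_eq, d2_eq]
    exact ((hv_deriv hw).deriv).symm
  have dgg : ∀ z : ℂ, z ≠ 0 → z ≠ 1 → DifferentiableAt ℂ (gg β) z := by
    intro z h0 h1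
    unfold gg
    have h2 : z - 1 ≠ 0 := sub_ne_zero.2 h1
    have e1 : DifferentiableAt ℂ (fun z : ℂ => -((β : ℂ) / z)) z :=
      ((differentiableAt_const _).div differentiableAt_id h0).neg
    have e2 : DifferentiableAt ℂ (fun z : ℂ => (β : ℂ) / (z - 1)) z :=
      (differentiableAt_const _).div (differentiableAt_id.sub_const 1) h2
    exact e1.sub e2
  have dchi : ∀ z ∈ V, DifferentiableAt ℂ (chi β x₀) z := by
    intro z hz
    have g0 := not_bad hz.1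
    have g1 := not_bad hz.2
    have h1 : DifferentiableAt ℂ (fun z => gg β (fx x₀ z)) z :=
      (dgg _ g1.1 g1.2.1).comp z (fx_deriv g0.2.2.1).differentiableAt
    unfold chi
    exact ((dd2 z g0.2.2.1).add (((dd1 z g0.2.2.1).pow 2).mul h1)).sub
      ((dd1 z g0.2.2.1).mul (dgg z g0.1 g0.2.1))
  have duu : ∀ z ∈ V, DifferentiableAt ℂ (uu β x₀ ξ₀) z := by
    intro z hz
    have g0 := not_bad hz.1
    have g1 := not_bad hz.2
    have h1 : DifferentiableAt ℂ (fun z => gg β (fx x₀ z)) z :=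
      (dgg _ g1.1 g1.2.1).comp z (fx_deriv g0.2.2.1).differentiableAt
    unfold uu
    exact ((((dd1 z g0.2.2.1).mul h1).mul (det ξ₀ z g0.2.2.1)).add
      (ddet z g0.2.2.1)).neg.div (dchi z hz) g0.2.2.2.2
  set V' : Set ℂ := V ∩ {z | fx x₀ z ∈ V} with hV'
  have hV'o : IsOpen V' := by
    rw [isOpen_iff_mem_nhds]
    intro z hz
    have h1 : ∀ᶠ w in 𝓝 z, w ∈ V := hVo.mem_nhds hz.1
    have h2 : ∀ᶠ w in 𝓝 z, fx x₀ w ∈ V := (hfc z hz.1.1) (hVo.mem_nhds hz.2)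
    exact h1.and h2
  have hV'c : V'ᶜ.Countable := by
    have h1 : V'ᶜ ⊆ Vᶜ ∪ ⋃ a ∈ Vᶜ, ((pre (nu x₀) (de x₀) a : Finset ℂ) : Set ℂ) := by
      intro z hz
      by_cases h : z ∈ V
      · right
        rw [mem_iUnion₂]
        have h2 : fx x₀ z ∉ V := by
          intro h3
          exact hz ⟨h, h3⟩
        refine ⟨fx x₀ z, h2, ?_⟩
        rw [Finset.mem_coe, af_mem hR₀]
        exact ⟨(not_bad h.1).2.2.1, rfl⟩
      · exact Or.inl h
    refine (Set.Countable.union hVc ?_).mono h1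
    exact hVc.biUnion fun a _ => (Finset.finite_toSet _).countable
  have hV'conn : IsPreconnected V' := by
    have h1 : IsConnected (V'ᶜᶜ) := hV'c.isConnected_compl_of_one_lt_rank (by
      rw [Complex.rank_real_complex]; norm_num)
    rw [compl_compl] at h1
    exact h1.isPreconnected
  set h : ℂ → ℂ := fun z => et x₀ ξ₀ z - (uu β x₀ ξ₀ (fx x₀ z) -
    d1 (nu x₀) (de x₀) z * uu β x₀ ξ₀ z) with hh
  have hd : DifferentiableOn ℂ h V' := by
    intro z hz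
    have g0 := not_bad hz.1.1
    have h1 : DifferentiableAt ℂ (fun z => uu β x₀ ξ₀ (fx x₀ z)) z :=
      (duu _ hz.2).comp z (fx_deriv g0.2.2.1).differentiableAt
    exact (((det ξ₀ z g0.2.2.1)).sub (h1.sub ((dd1 z g0.2.2.1).mul
      (duu z hz.1)))).differentiableWithinAt
  have hV'0 : volume V'ᶜ = 0 := hV'c.measure_zero _
  have hnull := Pool.Agent.W366.REDI.null_iso hV'o hd
  -- a point near which the function vanishes
  obtain ⟨z₀, hz₀V, hz₀⟩ : ∃ z₀ ∈ V', ∀ᶠ w in 𝓝 z₀, h w = 0 := by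
    by_contra hcon'
    have hcon : ∀ z ∈ V', ¬ ∀ᶠ w in 𝓝 z, h w = 0 := fun z hz hw => hcon' ⟨z, hz, hw⟩
    apply hpos
    refine measure_mono_null (t := {z : ℂ | z ∈ V' ∧ h z = 0 ∧ ¬ ∀ᶠ w in 𝓝 z, h w = 0} ∪ V'ᶜ) ?_
      (measure_union_null hnull hV'0)
    intro z hz
    by_cases hzV : z ∈ V'
    · exact Or.inl ⟨hzV, sub_eq_zero.2 hz, hcon z hzV⟩
    · exact Or.inr hzV
  have han : AnalyticOnNhd ℂ h V' := hd.analyticOnNhd hV'o
  have heq := han.eqOn_zero_of_preconnected_of_eventuallyEq_zero hV'conn hz₀V hz₀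
  rw [ae_iff]
  refine measure_mono_null ?_ hV'0
  intro z hz hzV
  exact hz (sub_eq_zero.1 (heq hzV))

/-- The relation for the limits. -/
theorem limit_rel' {β κ : ℝ} (hfin : mu β univ < ⊤)
    (hMU : ∀ E : Set ℂ, volume E = 0 ↔ mu β E = 0) (hκ : 0 < κ)
    (hd : 2 ≤ d) {x : ℕ → CV d} {x₀ : CV d} (hx₀ : ND x₀) (hND : ∀ n, ND (x n))
    (hx : Tendsto x atTop (𝓝 x₀)) {ξ : ℕ → CV d} {ξ₀ : CV d} (hξ : Tendsto ξ atTop (𝓝 ξ₀))
    (hchi : {z : ℂ | chi β x₀ z = 0}.Finite) {W K : ℕ → Set ℂ} {v : ℕ → ℂ → ℂ}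
    (hW : ∀ n, IsOpen (W n)) (hKm : ∀ n, MeasurableSet (K n)) (hKW : ∀ n, K n ⊆ W n)
    (hmu : ∀ n, ENNReal.ofReal κ ≤ mu β (K n))
    (hv : ∀ n, DifferentiableOn ℂ (v n) (W n))
    (hfK : ∀ n, ∀ᵐ z : ℂ, z ∈ K n → fx (x n) z ∈ K n)
    (hrel : ∀ n, ∀ z ∈ W n, (de (x n)).eval z ≠ 0 → fx (x n) z ∈ W n →
      v n (fx (x n) z) - d1 (nu (x n)) (de (x n)) z * v n z = et (x n) (ξ n) z)
    (hint : ∀ n, ∫⁻ z in K n, ENNReal.ofReal (‖Dv β (v n) z‖ ^ 2) ∂mu β ≤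
      ENNReal.ofReal ((1 / 2) ^ n)) :
    ∀ᵐ z : ℂ, et x₀ ξ₀ z = uu β x₀ ξ₀ (fx x₀ z) -
      d1 (nu x₀) (de x₀) z * uu β x₀ ξ₀ z := by
  have hR₀ := rm_of hd hx₀
  have hR := fun n => rm_of hd (hND n)
  apply rel_cont hR₀ hchi
  let J : ℕ → ℂ → ENNReal := fun n z => ENNReal.ofReal (‖d1 (nu (x n)) (de (x n)) z‖ ^ 2)
  have hJm : ∀ n, Measurable (J n) := fun n => ((d1_meas _ _).norm.pow_const 2).ennreal_ofReal
  let F : ℕ → ℂ → ENNReal := fun n z => phi β (K n) (v n) z * ENNReal.ofReal (rho β z)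
  have hFm : ∀ n, Measurable (F n) := fun n =>
    (phi_meas (hW n) (hKm n) (hKW n) (hv n)).mul (rho_meas β).ennreal_ofReal
  let G : ℕ → ℂ → ENNReal := fun n z => F n (fx (x n) z) * J n z
  have hGm : ∀ n, Measurable (G n) := fun n => ((hFm n).comp (fx_meas _)).mul (hJm n)
  let H : ℕ → ℂ → ENNReal := fun n z => G n (fx (x n) z) * J n z
  have hHm : ∀ n, Measurable (H n) := fun n => ((hGm n).comp (fx_meas _)).mul (hJm n)
  have hF1 : ∀ n, ∫⁻ z, F n z ≤ ENNReal.ofReal ((1 / 2) ^ n) := by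
    intro n
    have h1 := hint n
    rw [phi_int (hW n) (hKm n) (hKW n) (hv n)] at h1
    exact h1
  have hG1 : ∀ n, ∫⁻ z, G n z ≤ d * ENNReal.ofReal ((1 / 2) ^ n) := by
    intro n
    refine (push (hR n) (hFm n)).trans ?_
    gcongr
    exact hF1 n
  have hH1 : ∀ n, ∫⁻ z, H n z ≤ (d * d) * ENNReal.ofReal ((1 / 2) ^ n) := by
    intro n
    refine (push (hR n) (hGm n)).trans ?_
    rw [mul_assoc]
    gcongr
    exact hG1 n
  have aF : ∀ᵐ z : ℂ, Tendsto (fun n => F n z) atTop (𝓝 0) :=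
    ae_tend_zero hFm (C := 1) ENNReal.one_ne_top (fun n => by rw [one_mul]; exact hF1 n)
  have aG : ∀ᵐ z : ℂ, Tendsto (fun n => G n z) atTop (𝓝 0) :=
    ae_tend_zero hGm (ENNReal.natCast_ne_top d) hG1
  have aH : ∀ᵐ z : ℂ, Tendsto (fun n => H n z) atTop (𝓝 0) :=
    ae_tend_zero hHm (ENNReal.mul_ne_top (ENNReal.natCast_ne_top d) (ENNReal.natCast_ne_top d)) hH1
  have aK1 : ∀ᵐ z : ℂ, ∀ n, z ∈ K n → fx (x n) z ∈ K n := ae_all_iff.2 hfK
  have aK2 : ∀ᵐ z : ℂ, ∀ n, fx (x n) z ∈ K n → fx (x n) (fx (x n) z) ∈ K n :=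
    ae_all_iff.2 fun n => ae_pre (hR n) (hfK n)
  have hB := Bad_finite hR₀ hchi
  have aB : ∀ᵐ z : ℂ, z ∉ Bad β x₀ := by
    rw [ae_iff]
    simp only [not_not]
    exact hB.measure_zero _
  have aB1 : ∀ᵐ z : ℂ, fx x₀ z ∉ Bad β x₀ := ae_pre hR₀ aB
  have aB2 : ∀ᵐ z : ℂ, fx x₀ (fx x₀ z) ∉ Bad β x₀ := ae_pre hR₀ aB1
  have key : ∀ᵐ z : ℂ, (∃ᶠ n in atTop, z ∈ K n) → et x₀ ξ₀ z = uu β x₀ ξ₀ (fx x₀ z) -
      d1 (nu x₀) (de x₀) z * uu β x₀ ξ₀ z := by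
    filter_upwards [aF, aG, aH, aK1, aK2, aB, aB1, aB2] with z zF zG zH zK1 zK2 b0 b1 b2 hfreq
    obtain ⟨φ, hφ, hφK⟩ := extraction_of_frequently_atTop hfreq
    have hφt := hφ.tendsto_atTop
    exact point_rel (x := fun n => x (φ n)) (hx.comp hφt) (ξ := fun n => ξ (φ n)) (hξ.comp hφt)
      (W := fun n => W (φ n)) (K := fun n => K (φ n)) (v := fun n => v (φ n))
      (fun n => hW _) (fun n => hKW _) (fun n => hv _) (fun n => hrel _) hφK
      (fun n => zK1 _ (hφK n)) (fun n => zK2 _ (zK1 _ (hφK n))) b0 b1 b2 (zF.comp hφt)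
      (zG.comp hφt) (zH.comp hφt)
  have hmass := limsup_mass hfin hKm hmu
  intro hzero
  have h1 : volume {z | ∃ᶠ n in atTop, z ∈ K n} = 0 := by
    rw [ae_iff] at key
    refine measure_mono_null ?_ (measure_union_null hzero key)
    intro z hz
    by_cases h : et x₀ ξ₀ z = uu β x₀ ξ₀ (fx x₀ z) - d1 (nu x₀) (de x₀) z * uu β x₀ ξ₀ z
    · exact Or.inl h
    · exact Or.inr fun h2 => h (h2 hz)
  rw [(hMU _).1 h1] at hmass
  have := ENNReal.ofReal_pos.2 hκ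
  exact absurd hmass (not_le.2 this)

end Pool.Agent.Helper38.AM
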