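import Mathlib
import Pool.Agent.Helper38.AM.Lim

/-! The uniform gain when the set has mass bounded from below. -/

set_option autoImplicit false

open Topology Filter Metric Set MeasureTheory Polynomial
open Pool.Agent.H790R3.RB (CV hF cr ND wr rt pol)
open Pool.Agent.W757.QR (nu de fx fr d1 d2 wn hv hd RM pre)
open Pool.Agent.W757.RD
open Pool.Agent.W40.RQAF (fr_meas d1_meas wn_ne Q_ne af_mem)
open Pool.Agent.W973.UG

namespace Pool.Agent.Helper38.AM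

variable {d : ℕ}

/-- Part 1. -/
theorem partOne' (hUGA : StUGA) (hMU : StMU) {β κ : ℝ} {x₀ : CV d} (hβ1 : 1 / 2 < β)
    (hβ2 : β < 1) (hκ : 0 < κ)
    (hd : 2 ≤ d) (hND : ND x₀) (hN : Nrm x₀) (hG : Gz x₀) :
    ∃ c₀ σ : ℝ, 0 < c₀ ∧ 0 < σ ∧ ∀ x ξ : CV d, ‖x - x₀‖ < σ →
      ξ (0, Fin.last d) = 0 → ξ (1, Fin.last d) = 0 → ∀ (W K : Set ℂ) (v : ℂ → ℂ), IsOpen W →
      MeasurableSet K → K ⊆ W → ENNReal.ofReal κ ≤ mu β K → DifferentiableOn ℂ v W →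
      (∀ᵐ z : ℂ, z ∈ K → fx x z ∈ K) →
      (∀ z ∈ W, (de x).eval z ≠ 0 → fx x z ∈ W →
        v (fx x z) - d1 (nu x) (de x) z * v z = et x ξ z) →
      ENNReal.ofReal (c₀ * ‖ξ‖ ^ 2) ≤ ∫⁻ z in K, ENNReal.ofReal (‖Dv β v z‖ ^ 2) ∂mu β := by
  obtain ⟨σ₀, hσ₀, hσ⟩ := Metric.eventually_nhds_iff.1 (Pool.Agent.H790R3.RB.FAM.ND_open hND)
  by_contra hcon
  push Not at hcon
  have hp : ∀ n : ℕ, (0 : ℝ) < (1 / 2) ^ n := fun n => by positivity
  choose x ξ hx hξ0 hξ1 W K v hW hKm hKW hmu hv hfK hrel hlt using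
    fun n : ℕ => hcon ((1 / 2) ^ n) (min ((1 / 2) ^ n) σ₀) (hp n)
      (lt_min (hp n) hσ₀)
  have hξne : ∀ n, ‖ξ n‖ ≠ 0 := by
    intro n h0
    have := hlt n
    rw [h0] at this
    simp at this
  have hξpos : ∀ n, 0 < ‖ξ n‖ := fun n => lt_of_le_of_ne (norm_nonneg _) (hξne n).symm
  let a : ℕ → ℂ := fun n => ((‖ξ n‖⁻¹ : ℝ) : ℂ)
  have ha : ∀ n, ‖a n‖ = ‖ξ n‖⁻¹ := by
    intro n
    change ‖((‖ξ n‖⁻¹ : ℝ) : ℂ)‖ = _
    rw [Complex.norm_real, Real.norm_of_nonneg (inv_nonneg.2 (norm_nonneg _))]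
  let ξ' : ℕ → CV d := fun n => a n • ξ n
  have hξ' : ∀ n, ξ' n ∈ sphere (0 : CV d) 1 := by
    intro n
    rw [mem_sphere_zero_iff_norm]
    change ‖a n • ξ n‖ = 1
    rw [norm_smul, ha, inv_mul_cancel₀ (hξne n)]
  obtain ⟨ξ₀, hξ₀, φ, hφ, hφt⟩ := (isCompact_sphere (0 : CV d) 1).tendsto_subseq hξ'
  have hle : ∀ n, ((1 : ℝ) / 2) ^ (φ n) ≤ (1 / 2) ^ n := fun n =>
    pow_le_pow_of_le_one (by norm_num) (by norm_num) (hφ.id_le n)
  have hxt : Tendsto (fun n => x (φ n)) atTop (𝓝 x₀) := by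
    rw [tendsto_iff_norm_sub_tendsto_zero]
    refine squeeze_zero (fun n => norm_nonneg _) (fun n => ?_)
      (tendsto_pow_atTop_nhds_zero_of_lt_one (r := (1 : ℝ) / 2) (by norm_num) (by norm_num))
    exact ((hx (φ n)).le.trans (min_le_left _ _)).trans (hle n)
  have hNDx : ∀ n, ND (x n) := fun n => hσ (by
    rw [dist_eq_norm]
    exact lt_of_lt_of_le (hx n) (min_le_right _ _))
  obtain ⟨hchi, huga⟩ := hUGA β d x₀ hβ1 hβ2 hd hND hN hG
  have hlast : ∀ i : Fin 2, (∀ n, ξ n (i, Fin.last d) = 0) → ξ₀ (i, Fin.last d) = 0 := by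
    intro i hi
    have h1 : Tendsto (fun n => ξ' (φ n) (i, Fin.last d)) atTop (𝓝 (ξ₀ (i, Fin.last d))) :=
      ((continuous_apply (i, Fin.last d)).tendsto ξ₀).comp hφt
    have h2 : ∀ n, ξ' (φ n) (i, Fin.last d) = 0 := by
      intro n
      change a (φ n) * ξ (φ n) (i, Fin.last d) = 0
      rw [hi, mul_zero]
    simp only [h2] at h1
    exact (tendsto_nhds_unique h1 tendsto_const_nhds)
  have hzero : ξ₀ = 0 := by
    refine huga ξ₀ (hlast 0 hξ0) (hlast 1 hξ1) ?_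
    refine limit_rel' (x := fun n => x (φ n)) (ξ := fun n => ξ' (φ n)) (W := fun n => W (φ n))
      (K := fun n => K (φ n)) (v := fun n z => a (φ n) * v (φ n) z) (hMU β hβ1 hβ2).1
      (hMU β hβ1 hβ2).2 hκ hd hND
      (fun n => hNDx _) hxt hφt hchi (fun n => hW _) (fun n => hKm _) (fun n => hKW _)
      (fun n => hmu _) ?_ (fun n => hfK _) ?_ ?_
    · intro n
      exact (hv (φ n)).const_mul _
    · intro n z hz hQ hf
      change a (φ n) * v (φ n) (fx (x (φ n)) z) - d1 (nu (x (φ n))) (de (x (φ n))) z *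
        (a (φ n) * v (φ n) z) = et (x (φ n)) (a (φ n) • ξ (φ n)) z
      rw [et_smul, ← hrel (φ n) z hz hQ hf]
      ring
    · intro n
      have h1 : ∀ z, ENNReal.ofReal (‖Dv β (fun z => a (φ n) * v (φ n) z) z‖ ^ 2) =
          ENNReal.ofReal (‖ξ (φ n)‖⁻¹ ^ 2) * ENNReal.ofReal (‖Dv β (v (φ n)) z‖ ^ 2) := by
        intro z
        rw [Dv_smul, norm_mul, mul_pow, ha, ENNReal.ofReal_mul (by positivity)]
      simp only [h1]
      rw [lintegral_const_mul' _ _ ENNReal.ofReal_ne_top]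
      refine (mul_le_mul_right (hlt (φ n)).le _).trans ?_
      rw [← ENNReal.ofReal_mul (by positivity)]
      apply ENNReal.ofReal_le_ofReal
      have h2 := hξne (φ n)
      have h3 : ‖ξ (φ n)‖⁻¹ ^ 2 * ((1 / 2) ^ φ n * ‖ξ (φ n)‖ ^ 2) = (1 / 2) ^ φ n := by
        field_simp
      rw [h3]
      exact hle n
  rw [hzero] at hξ₀
  simp at hξ₀

/-- Uniform gain: a vector field which is almost equivariant up to the infinitesimal perturbation
`ξ` on a set of mass at least `κ` has covariant derivative of square norm at least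
`c₀ * ‖ξ‖ ^ 2`. -/
def StUG' (κ : ℝ) : Prop :=
  ∀ (β : ℝ) (d : ℕ) (x₀ : CV d), 1 / 2 < β → β < 1 → 2 ≤ d → ND x₀ → Nrm x₀ → Gz x₀ →
    ∃ c₀ σ : ℝ, 0 < c₀ ∧ 0 < σ ∧ ∀ x ξ : CV d, ‖x - x₀‖ < σ → Nrm x →
      ξ (0, Fin.last d) = 0 → ξ (1, Fin.last d) = 0 → ∀ (W K : Set ℂ) (v : ℂ → ℂ), IsOpen W →
      MeasurableSet K → K ⊆ W → ENNReal.ofReal κ ≤ mu β K → DifferentiableOn ℂ v W →
      (∀ᵐ z : ℂ, z ∈ K → fx x z ∈ K) →
      (∀ z ∈ W, (de x).eval z ≠ 0 → fx x z ∈ W →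
        v (fx x z) - d1 (nu x) (de x) z * v z = et x ξ z) →
      ENNReal.ofReal (c₀ * ‖ξ‖ ^ 2) ≤ ∫⁻ z in K, ENNReal.ofReal (‖Dv β v z‖ ^ 2) ∂mu β ∧
      (∫⁻ z in K, ENNReal.ofReal (‖Dv β v z‖ ^ 2) ∂mu β = 0 → ∀ᵐ z : ℂ, z ∈ K → v z = 0)

theorem UG' (hUGA : StUGA) (hMU : StMU) {κ : ℝ} (hκ : 0 < κ) : StUG' κ := by
  intro β d x₀ hβ1 hβ2 hd hND hN hG
  obtain ⟨c₀, σ₁, hc, hσ₁, h1⟩ := partOne' hUGA hMU hβ1 hβ2 hκ hd hND hN hG
  obtain ⟨σ₂, hσ₂, h2⟩ := Metric.eventually_nhds_iff.1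
    ((Pool.Agent.H790R3.RB.FAM.ND_open hND).and (Gz_open hG))
  refine ⟨c₀, min σ₁ σ₂, hc, lt_min hσ₁ hσ₂, ?_⟩
  intro x ξ hx hNx hξ0 hξ1 W K v hW hK hKW hmu hv hfK hrel
  have hp1 := h1 x ξ (lt_of_lt_of_le hx (min_le_left _ _)) hξ0 hξ1 W K v hW hK hKW hmu hv hfK hrel
  refine ⟨hp1, fun hint => ?_⟩
  obtain ⟨hNDx, hGx⟩ := h2 (show dist x x₀ < σ₂ by
    rw [dist_eq_norm]; exact lt_of_lt_of_le hx (min_le_right _ _))
  have hR := rm_of hd hNDx
  have hξ : ξ = 0 := by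
    rw [hint, nonpos_iff_eq_zero, ENNReal.ofReal_eq_zero] at hp1
    have h3 : ‖ξ‖ ^ 2 ≤ 0 := by
      by_contra hcon
      push Not at hcon
      have := mul_pos hc hcon
      linarith
    have h4 : ‖ξ‖ = 0 := by
      have := sq_nonneg ‖ξ‖
      exact pow_eq_zero_iff (two_ne_zero) |>.1 (le_antisymm h3 this)
    exact norm_eq_zero.1 h4
  obtain ⟨hchi, -⟩ := hUGA β d x hβ1 hβ2 hd hNDx hNx (hGx hNx)
  have a1 : ∀ᵐ z : ℂ, chi β x z ≠ 0 := by
    rw [ae_iff]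
    simp only [ne_eq, not_not]
    exact hchi.measure_zero _
  have a2 : ∀ᵐ z : ℂ, z ∈ K → Dv β v z = 0 := by
    have hpm : Measurable (fun z => phi β K v z * ENNReal.ofReal (rho β z)) :=
      (phi_meas hW hK hKW hv).mul (rho_meas β).ennreal_ofReal
    rw [phi_int hW hK hKW hv, lintegral_eq_zero_iff hpm] at hint
    have a3 : ∀ᵐ z : ℂ, z ∉ ({0, 1} : Set ℂ) := by
      rw [ae_iff]
      simp only [not_not]
      exact (toFinite ({0, 1} : Set ℂ)).measure_zero _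
    filter_upwards [hint, a3] with z k1 k2 hz
    have k3 : phi β K v z * ENNReal.ofReal (rho β z) = 0 := k1
    have hz0 : z ≠ 0 := fun h => k2 (by rw [h]; simp)
    have hz1 : z ≠ 1 := fun h => k2 (by rw [h]; simp)
    rw [phi_mem hz, ← ENNReal.ofReal_mul (by positivity), ENNReal.ofReal_eq_zero] at k3
    have h5 := rho_pos β hz0 hz1
    by_contra hne
    have h6 : 0 < ‖Dv β v z‖ ^ 2 := pow_pos (norm_pos_iff.2 hne) 2
    have := mul_pos h6 h5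
    linarith
  have a3 : ∀ᵐ z : ℂ, fx x z ∈ K → Dv β v (fx x z) = 0 := ae_pre hR a2
  have a4 : ∀ᵐ z : ℂ, (de x).eval z ≠ 0 := by
    rw [ae_iff]
    simp only [ne_eq, not_not]
    have h5 : ({z : ℂ | (de x).eval z = 0}).Finite := by
      refine (de x).roots.toFinset.finite_toSet.subset ?_
      intro z hz
      rw [Finset.mem_coe, Multiset.mem_toFinset, mem_roots (Q_ne hR)]
      exact hz
    exact h5.measure_zero _
  have het : ∀ z, et x ξ z = 0 := by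
    intro z
    have := et_smul x ξ 0 z
    rw [zero_smul, zero_mul] at this
    rw [hξ]
    exact this
  have hdet : ∀ z, deriv (et x ξ) z = 0 := by
    intro z
    have : et x ξ = fun _ => 0 := funext het
    rw [this]
    simp
  filter_upwards [a1, a2, a3, a4, hfK] with z k1 k2 k3 k4 k5 hz
  have h5 := diff_rel (β := β) hW hv hrel (hKW hz) k4 (hKW (k5 hz))
  rw [k2 hz, k3 (k5 hz), het, hdet] at h5
  have h6 : chi β x z * v z = 0 := by rw [h5]; ring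
  exact (mul_eq_zero.1 h6).resolve_left k1

end Pool.Agent.Helper38.AM
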