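import Mathlib
import Pool.Agent.Helper38.AM.Minp
import Pool.Agent.Helper38.AM.Att

/-! The area minus a plurisubharmonic function has no local minimum away from the hyperbolic
maps, in the universal family. -/

set_option autoImplicit false

open Topology Filter Metric Set MeasureTheory
open Pool.Agent.H790R3.RB (CV hF cr ND wr rt Ix yx yc sp HypTop Attd Sink)
open Pool.Agent.W757.RD Pool.Agent.W757.RD.SEL
open scoped OnePoint

namespace Pool.Agent.Helper38.AM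

theorem PSH.mono {E : Type} [NormedAddCommGroup E] [NormedSpace ℂ E] {φ : E → ℝ} {D D' : Set E}
    (h : PSH φ D) (hD : D' ⊆ D) : PSH φ D' :=
  ⟨h.1.mono hD, fun τ γ h1 h2 ρ h3 h4 => h.2 τ γ h1 (fun t ht => hD (h2 t ht)) ρ h3 h4⟩

theorem PSH.add {E : Type} [NormedAddCommGroup E] [NormedSpace ℂ E] {φ ψ : E → ℝ} {D : Set E}
    (h : PSH φ D) (h' : PSH ψ D) : PSH (fun v => φ v + ψ v) D := by
  refine ⟨h.1.add h'.1, fun τ γ h1 h2 ρ h3 h4 => ?_⟩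
  have hc : ∀ χ : E → ℝ, ContinuousOn χ D →
      Continuous fun θ : ℝ => χ (γ (circleMap 0 ρ θ)) := fun χ hχ =>
    (hχ.comp h1.continuousOn h2).comp_continuous (continuous_circleMap 0 ρ)
      (Pool.Agent.H713R3.ZA.circ_mem h3 h4)
  have e1 := h.2 τ γ h1 h2 ρ h3 h4
  have e2 := h'.2 τ γ h1 h2 ρ h3 h4
  rw [intervalIntegral.integral_add ((hc φ h.1).intervalIntegrable _ _)
    ((hc ψ h'.1).intervalIntegrable _ _), mul_add]
  exact add_le_add e1 e2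

theorem p_MINP' {m₀ : ℝ} (hm₀ : 0 < m₀) : StMINP' m₀ :=
  MINP' p_FM p_LAM p_LIN p_LSC (UG' p_UGA p_MU hm₀) p_GAIN p_MS p_AU p_CNJ p_USC p_ADO p_LF p_IN
    p_BAD p_CPT p_OPN p_EXC p_FKB p_POLE p_NU p_JT p_ST p_NC p_FWD p_MU
    Pool.Agent.H790R3.RB.DISC Pool.Agent.H790R3.RB.MAXI

/-- configurations with potential at least `j` -/
def Cg (d : ℕ) (β : ℝ) (u₁ : Fin (2 * d) → ℂ) (φ : (Fin (2 * d) → ℂ) → ℝ) (j : ℕ) (x b : ℝ) :
    Prop :=
  ∃ (s : ℕ) (S : Sys d (2 * d + s) s) (KK : Fin s → (Fin (2 * d + s) → ℂ) × (ℂ × ℂ) → ℂ)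
    (A : Finset (Pt d)) (ks : Pt d → Fin s)
    (ls : Pt d → ℕ) (R : ℕ) (y : Ix d (2 * d + s) s → ℂ), Ext S ∧ S.Koe KK ∧
    ‖xp (yx y) - u₁‖ ≤ x ∧ (mu β (S.KS (yx y))).toReal ≤ b + φ (xp (yx y)) ∧
    Sum.inr 0 ∈ A ∧ Sum.inr 1 ∈ A ∧
    Goodc S KK (ee S) A ks ls R y ∧ (A.card = 2 * d ∨ j ≤ A.card * (6 * d) + R)

/-- the area has dropped -/
def Dr (d : ℕ) (β : ℝ) (u₁ : Fin (2 * d) → ℂ) (φ : (Fin (2 * d) → ℂ) → ℝ) (x b : ℝ) : Prop :=
  ∃ u : Fin (2 * d) → ℂ, ‖u - u₁‖ ≤ x ∧ u ∈ U₀ d ∧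
    (∀ j : Fin 2, Attd (sp (fam u)) (bz j : OnePoint ℂ)) ∧
    (mu β {ζ : ℂ | ¬ Attd (sp (fam u)) (ζ : OnePoint ℂ)}).toReal ≤ b + φ u

theorem one_step {β : ℝ} {d : ℕ} {u₀ : Fin (2 * d) → ℂ} (hβ : 1 / 2 < β) (hβ1 : β < 1)
    (hd : 2 ≤ d) {m₀ c₁ σ₁ : ℝ} (hσ₁ : 0 < σ₁) (hBU : closedBall u₀ σ₁ ⊆ U₀ d)
    (hmin : ∀ (s : ℕ) (S : Sys d (2 * d + s) s)
      (KK : Fin s → (Fin (2 * d + s) → ℂ) × (ℂ × ℂ) → ℂ)
      (A : Finset (Pt d)) (ks : Pt d → Fin s) (ls : Pt d → ℕ) (R : ℕ)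
      (y : Ix d (2 * d + s) s → ℂ), Ext S → S.Koe KK → (∀ k, S.b k (yx y) = bp (yx y) k) →
      IsCompact {q | q ∈ S.U ∧ xp q ∈ closedBall u₀ σ₁ ∧ (∀ k, S.b k q = bp q k) ∧
        ∀ k, S.lam k q = S.lam k (yx y)} →
      ‖xp (yx y) - u₀‖ < σ₁ / 2 → ∀ (ρ b : ℝ) (φ : (Fin (2 * d) → ℂ) → ℝ), 0 < ρ →
      ρ ≤ σ₁ / 2 → ContinuousOn φ (closedBall (xp (yx y)) ρ) → PSH φ (ball (xp (yx y)) ρ) →
      (∀ u ∈ closedBall (xp (yx y)) ρ, b + φ u + m₀ < (mu β univ).toReal) →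
      (mu β (S.KS (yx y))).toReal ≤ b + φ (xp (yx y)) →
      Goodc S KK (ee S) A ks ls R y → Sum.inr 0 ∈ A → Sum.inr 1 ∈ A → A.card < 2 * d →
      ∀ η : ℝ, 0 < η →
      ∃ (A' : Finset (Pt d)) (ks' : Pt d → Fin s) (ls' : Pt d → ℕ)
        (z : Ix d (2 * d + s) s → ℂ), ‖xp (yx z) - xp (yx y)‖ ≤ ρ ∧ Sum.inr 0 ∈ A' ∧
        Sum.inr 1 ∈ A' ∧
        ((A.card < A'.card ∧ Goodc S KK (ee S) A' ks' ls' 0 z ∧
            (mu β (S.KS (yx z))).toReal ≤ b + φ (xp (yx z)) + η) ∨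
          (A'.card = A.card ∧ Goodc S KK (ee S) A' ks' ls' (R + 1) z ∧
            (mu β (S.KS (yx z))).toReal ≤ b + φ (xp (yx z)) + η) ∨
          (S.Adm A' ks' ls' z ∧
            (mu β (S.KS (yx z))).toReal ≤ b + φ (xp (yx z)) - c₁ * ρ ^ 2 + η)))
    (u₁ : Fin (2 * d) → ℂ) (j : ℕ) (x b ρ ρ₀ : ℝ) (φ : (Fin (2 * d) → ℂ) → ℝ)
    (hρ : 0 < ρ) (hρσ : ρ ≤ σ₁ / 2) (hxρ : x + ρ ≤ ρ₀) (hx : x + ‖u₁ - u₀‖ < σ₁ / 2)
    (hφc : ContinuousOn φ (closedBall u₁ ρ₀)) (hφ : PSH φ (ball u₁ ρ₀))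
    (hmass : ∀ u ∈ closedBall u₁ ρ₀, b + φ u + m₀ < (mu β univ).toReal)
    (hC : Cg d β u₁ φ j x b) (η : ℝ) (hη : 0 < η) :
    Cg d β u₁ φ (j + 1) (x + ρ) (b + η) ∨ Dr d β u₁ φ (x + ρ) (b - c₁ * ρ ^ 2 + η) := by
  classical
  obtain ⟨s, S, KK, A, ks, ls, R, y, h1, h2, h3, h4, hA0, hA1, h5, h6⟩ := hC
  by_cases hcard : A.card = 2 * d
  · exact Or.inl ⟨s, S, KK, A, ks, ls, R, y, h1, h2, by linarith, by linarith, hA0, hA1, h5,
      Or.inl hcard⟩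
  have hlt : A.card < 2 * d := lt_of_le_of_ne (card_le hd A) hcard
  have hj : j ≤ A.card * (6 * d) + R := h6.resolve_left hcard
  have hq : yx y ∈ S.U := h5.1.xU
  have hMk := mk_of p_LAM h1 hq
  have hdist : ‖xp (yx y) - u₀‖ < σ₁ / 2 := by
    have : xp (yx y) - u₀ = (xp (yx y) - u₁) + (u₁ - u₀) := by abel
    rw [this]
    exact lt_of_le_of_lt (norm_add_le _ _) (by linarith)
  obtain ⟨S', q₀, g1, g2, g3, g4, g5, g6, g7⟩ := p_MARK d (closedBall u₀ σ₁) hd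
    (isCompact_closedBall _ _) hBU (xp (yx y)) (by
      rw [mem_closedBall, dist_eq_norm]
      linarith) s S.per _ hMk
  obtain ⟨KK', hKK'⟩ := p_KOE d (2 * d + s) s S'
  let y' : Ix d (2 * d + s) s → ℂ := Sum.elim q₀ (Sum.elim (yc y) (fun k => ys y k))
  have hyx : yx y' = q₀ := rfl
  have hyc : yc y = yc y' := rfl
  have hyk : ys y = ys y' := rfl
  obtain ⟨t1, t2, t3⟩ := p_TRF d s S S' h1 g1 g2.symm (yx y) q₀ hq g3 g4.symm
    (fun k => (g6 k).symm)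
  have hG' := t3 KK KK' A ks ls R y y' h2 hKK' rfl rfl hyc hyk h5
  have hsub : closedBall (xp (yx y)) ρ ⊆ closedBall u₁ ρ₀ := by
    refine closedBall_subset_closedBall' ?_
    rw [dist_eq_norm]
    linarith
  have hsub' : ball (xp (yx y)) ρ ⊆ ball u₁ ρ₀ := by
    refine ball_subset_ball' ?_
    rw [dist_eq_norm]
    linarith
  obtain ⟨A', ks', ls', z, z1, z3, z3', z4⟩ := hmin s S' KK' A ks ls R y' g1 hKK'
    (fun k => by rw [hyx, g6, g5]) (by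
      rw [hyx]
      exact g7) (by
      rw [hyx, g4]
      exact hdist) ρ b φ hρ hρσ (by
      rw [hyx, g4]
      exact hφc.mono hsub) (by
      rw [hyx, g4]
      exact hφ.mono hsub') (by
      rw [hyx, g4]
      exact fun u hu => hmass u (hsub hu)) (by
      rw [hyx, g4, ← t1]
      exact h4) hG' hA0 hA1 hlt η hη
  have hz : ‖xp (yx z) - u₁‖ ≤ x + ρ := by
    rw [hyx, g4] at z1
    have : xp (yx z) - u₁ = (xp (yx y) - u₁) + (xp (yx z) - xp (yx y)) := by abel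
    rw [this]
    exact (norm_add_le _ _).trans (by linarith)
  have hRle := R_le h5
  have hsle := s_le p_NUM p_ER h5
  rcases z4 with ⟨z5, z6, z7⟩ | ⟨z5, z6, z7⟩ | ⟨z6, z7⟩
  · refine Or.inl ⟨s, S', KK', A', ks', ls', 0, z, g1, hKK', hz, by linarith, z3, z3', z6,
      Or.inr ?_⟩
    have h7 : (A.card + 1) * (6 * d) ≤ A'.card * (6 * d) := Nat.mul_le_mul_right _ z5
    have h8 : (A.card + 1) * (6 * d) = A.card * (6 * d) + 6 * d := by ring
    omega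
  · refine Or.inl ⟨s, S', KK', A', ks', ls', R + 1, z, g1, hKK', hz, by linarith, z3, z3', z6,
      Or.inr ?_⟩
    rw [z5]
    omega
  · have hco : S'.co (yx z) = fam (xp (yx z)) := g1.co _ z6.xU
    refine Or.inr ⟨xp (yx z), hz, g1.U _ z6.xU, ?_, ?_⟩
    · intro j
      have h7 : Sum.inr j ∈ A' := by
        fin_cases j
        · exact z3
        · exact z3'
      have h8 := base_attd S' z6 h7
      rwa [hco] at h8
    · have h7 := nonatt_sub S' z6.xU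
      rw [hco] at h7
      have h8 : (mu β {ζ : ℂ | ¬ Attd (sp (fam (xp (yx z)))) (ζ : OnePoint ℂ)}).toReal ≤
          (mu β (S'.KS (yx z))).toReal :=
        ENNReal.toReal_mono ((measure_mono (subset_univ _)).trans_lt (p_MU β hβ hβ1).1).ne
          (measure_mono h7)
      linarith

/-- The descent in the universal family. -/
theorem descent {β κ : ℝ} {d : ℕ} {u₀ : Fin (2 * d) → ℂ} (hβ : 1 / 2 < β) (hβ1 : β < 1)
    (hκ : 0 < κ) (hd : 2 ≤ d) (hu₀ : u₀ ∈ U₀ d) (hGz : Gz (fam u₀)) :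
    ∃ c r : ℝ, 0 < c ∧ 0 < r ∧ ∀ u₁ : Fin (2 * d) → ℂ, ‖u₁ - u₀‖ < r →
      (∀ p : ℕ, ¬ Sink (sp (fam u₁)) p ∞) →
      (∀ j : Fin 2, Attd (sp (fam u₁)) (bz j : OnePoint ℂ)) →
      (mu β {ζ : ℂ | ¬ Attd (sp (fam u₁)) (ζ : OnePoint ℂ)}).toReal + κ ≤ (mu β univ).toReal →
      ∀ (ρ : ℝ) (φ : (Fin (2 * d) → ℂ) → ℝ), 0 < ρ → ρ < r →
      ContinuousOn φ (closedBall u₁ ρ) → PSH φ (ball u₁ ρ) →
      (∀ u ∈ closedBall u₁ ρ, φ u ≤ φ u₁ + κ / 2) →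
      ∃ u : Fin (2 * d) → ℂ, ‖u - u₁‖ ≤ ρ ∧ u ∈ U₀ d ∧ (HypTop (sp (fam u)) ∨
        ((∀ j : Fin 2, Attd (sp (fam u)) (bz j : OnePoint ℂ)) ∧
        (mu β {ζ : ℂ | ¬ Attd (sp (fam u)) (ζ : OnePoint ℂ)}).toReal - φ u ≤
          (mu β {ζ : ℂ | ¬ Attd (sp (fam u₁)) (ζ : OnePoint ℂ)}).toReal - φ u₁ - c * ρ ^ 2)) := by
  classical
  have hm₀ : 0 < κ / 4 := by positivity
  obtain ⟨c₁, σ₁, hc₁, hσ₁, hBU, hmin⟩ := p_MINP' hm₀ β d u₀ hβ hβ1 hd hu₀ hGz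
  set T : ℕ := 2 * d * (6 * d) + 6 * d with hT
  have hT0 : (0 : ℝ) ≤ (T : ℝ) := Nat.cast_nonneg _
  refine ⟨c₁ / (2 * (T + 2) ^ 2), σ₁ / 8, by positivity, by positivity, ?_⟩
  intro u₁ hu₁ hsink hatt hA ρ φ hρ hρr hφc hφ hosc
  set a : ℝ := (mu β {ζ : ℂ | ¬ Attd (sp (fam u₁)) (ζ : OnePoint ℂ)}).toReal with ha
  have hfin : ∀ E : Set ℂ, mu β E ≠ ⊤ := fun E =>
    ((measure_mono (subset_univ _)).trans_lt (p_MU β hβ hβ1).1).ne
  have hu₁U : u₁ ∈ U₀ d := hBU (by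
    rw [mem_closedBall, dist_eq_norm]
    linarith)
  set ρ' : ℝ := ρ / (T + 2) with hρ'
  have hρ'0 : 0 < ρ' := by positivity
  have hρ'm : (T + 2) * ρ' = ρ := by rw [hρ']; field_simp
  have hρ'ρ : ρ' ≤ ρ := by
    have : 0 ≤ ((T : ℝ) + 1) * ρ' := by positivity
    nlinarith
  set η : ℝ := min (κ / 16) (c₁ * ρ' ^ 2 / 2) / (T + 2) with hηd
  have hη : 0 < η := by
    have : 0 < min (κ / 16) (c₁ * ρ' ^ 2 / 2) := lt_min (by positivity) (by positivity)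
    positivity
  have hηm : (T + 2) * η = min (κ / 16) (c₁ * ρ' ^ 2 / 2) := by rw [hηd]; field_simp
  have hη1 : (T + 2) * η ≤ κ / 16 := hηm ▸ min_le_left _ _
  have hη2 : (T + 2) * η ≤ c₁ * ρ' ^ 2 / 2 := hηm ▸ min_le_right _ _
  -- the start
  have hφ1 : ∀ᶠ u in 𝓝 u₁, φ u₁ - η / 2 < φ u := by
    have h1 : ContinuousAt φ u₁ := hφ.1.continuousAt (isOpen_ball.mem_nhds (mem_ball_self hρ))
    exact h1.eventually (lt_mem_nhds (by linarith))
  obtain ⟨δ, hδ, hφ2⟩ := Metric.eventually_nhds_iff.1 hφ1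
  have hε : 0 < min (η / 2) (min δ ρ') := lt_min (by positivity) (lt_min hδ hρ'0)
  have hstart : Cg d β u₁ φ 0 ρ' (a - φ u₁ + η) := by
    obtain ⟨s, S, KK, ks, ls, y, h1, h2, h3, h4, h5⟩ :=
      p_START β d u₁ hβ hβ1 hd hu₁U hsink hatt _ hε
    refine ⟨s, S, KK, {Sum.inr 0, Sum.inr 1}, ks, ls, 0, y, h1, h2, ?_, ?_,
      by simp, by simp, h5, Or.inr (Nat.zero_le _)⟩
    · exact (h3.le.trans (min_le_right _ _)).trans (min_le_right _ _)
    · have e1 : (mu β (S.KS (yx y))).toReal ≤ a + min (η / 2) (min δ ρ') := by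
        have := ENNReal.toReal_mono (ENNReal.add_ne_top.2 ⟨hfin _, ENNReal.ofReal_ne_top⟩) h4
        rw [ENNReal.toReal_add (hfin _) ENNReal.ofReal_ne_top, ENNReal.toReal_ofReal hε.le] at this
        exact this
      have e2 : φ u₁ - η / 2 < φ (xp (yx y)) := hφ2 (by
        rw [dist_eq_norm]
        exact lt_of_lt_of_le h3 ((min_le_right _ _).trans (min_le_left _ _)))
      have e3 := min_le_left (η / 2) (min δ ρ')
      linarith
  -- the induction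
  have hind : ∀ j : ℕ, j ≤ T → Dr d β u₁ φ ρ (a - φ u₁ + (j + 1) * η - c₁ * ρ' ^ 2) ∨
      Cg d β u₁ φ j ((j + 1) * ρ') (a - φ u₁ + (j + 1) * η) := by
    intro j
    induction j with
    | zero =>
      intro _
      right
      simpa using hstart
    | succ j ih =>
      intro hj
      have hjT : (j : ℝ) + 1 ≤ T := by exact_mod_cast hj
      have hj0 : (0 : ℝ) ≤ j := Nat.cast_nonneg _
      have eη : ((j : ℝ) + 1) * η ≤ (T + 2) * η :=
        mul_le_mul_of_nonneg_right (by linarith) hη.le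
      have eρ : ((j : ℝ) + 2) * ρ' ≤ (T + 2) * ρ' :=
        mul_le_mul_of_nonneg_right (by linarith) hρ'0.le
      rcases ih (by omega) with h | h
      · left
        obtain ⟨u, g1, g2, g3, g4⟩ := h
        refine ⟨u, g1, g2, g3, ?_⟩
        push_cast
        nlinarith
      · have h1 := one_step hβ hβ1 hd hσ₁ hBU hmin u₁ j ((j + 1) * ρ') (a - φ u₁ + (j + 1) * η)
          ρ' ρ φ hρ'0 (by linarith) (by linarith) (by
            have := norm_nonneg (u₁ - u₀)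
            nlinarith) hφc hφ (fun u hu => by
            have := hosc u hu
            linarith) h η hη
        rcases h1 with h1 | h1
        · right
          obtain ⟨s, S, KK, A, ks, ls, R, y, g1, g2, g3, g4, g5⟩ := h1
          refine ⟨s, S, KK, A, ks, ls, R, y, g1, g2, ?_, ?_, g5⟩
          · push_cast
            linarith
          · push_cast
            linarith
        · left
          obtain ⟨u, g1, g2, g3, g4⟩ := h1
          refine ⟨u, by linarith, g2, g3, ?_⟩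
          push_cast
          linarith
  rcases hind T le_rfl with h | h
  · obtain ⟨u, g1, g2, g3, g4⟩ := h
    refine ⟨u, g1, g2, Or.inr ⟨g3, ?_⟩⟩
    have e1 : ((T : ℝ) + 1) * η ≤ (T + 2) * η := mul_le_mul_of_nonneg_right (by linarith) hη.le
    have e2 : c₁ / (2 * ((T : ℝ) + 2) ^ 2) * ρ ^ 2 = c₁ * ρ' ^ 2 / 2 := by
      rw [hρ']
      field_simp
    rw [e2]
    linarith
  · obtain ⟨s, S, KK, A, ks, ls, R, y, h1, h2, h3, h4, hA0, hA1, h5, h6⟩ := h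
    have hcard : A.card = 2 * d := by
      by_contra hcard
      have h7 := h6.resolve_left hcard
      have hRle := R_le h5
      have hsle := s_le p_NUM p_ER h5
      have hlt : A.card + 1 ≤ 2 * d := by
        have := card_le hd A
        omega
      have h8 : (A.card + 1) * (6 * d) ≤ (2 * d) * (6 * d) := Nat.mul_le_mul_right _ hlt
      have h9 : (A.card + 1) * (6 * d) = A.card * (6 * d) + 6 * d := by ring
      omega
    have hA : A = Finset.univ := by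
      apply Finset.eq_univ_of_card
      rw [hcard]
      simp only [Fintype.card_sum, Fintype.card_fin]
      omega
    subst hA
    have hq : yx y ∈ S.U := h5.1.xU
    refine ⟨xp (yx y), ?_, h1.U _ hq, Or.inl ?_⟩
    · refine h3.trans ?_
      nlinarith
    · rw [← h1.co _ hq]
      exact p_TOP d (2 * d + s) s S (yx y) hq (p_ALLC d (2 * d + s) s S ks ls y h5.1)

end Pool.Agent.Helper38.AM
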