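import Mathlib
import Pool.Agent.Helper38.AM.Sel

/-! The cone area of affine images of a set is a continuous plurisubharmonic function of the affine
map, as long as the images avoid the base points. -/

set_option autoImplicit false

open Topology Filter Metric Set MeasureTheory
open Pool.Agent.W757.RD
open Pool.Agent.H713R3.ZA
open Pool.Agent.H790R3.RB.CONT

namespace Pool.Agent.Helper38.AM

/-- the density of the cone area of affine images -/
noncomputable def kk (β : ℝ) (a b z : ℂ) : ℝ := ‖a‖ ^ 2 * rho β (a * z + b)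

theorem kk_nonneg (β : ℝ) (a b z : ℂ) : 0 ≤ kk β a b z :=
  mul_nonneg (by positivity) (Pool.Agent.W342.RE.rho_nonneg β _)

theorem aff_area {β : ℝ} {N : Set ℂ} (hN : MeasurableSet N) {a : ℂ} (b : ℂ) (ha : a ≠ 0) :
    mu β ((fun z => a * z + b) '' N) = ∫⁻ z in N, ENNReal.ofReal (kk β a b z) := by
  have hd : ∀ z : ℂ, HasDerivAt (fun z => a * z + b) a z := by
    intro z
    have := ((hasDerivAt_id z).const_mul a).add_const b
    simpa using this
  rw [Pool.Agent.W342.RE.mu_image hN isOpen_univ (subset_univ N)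
    (fun z _ => (hd z).differentiableAt.differentiableWithinAt) (by
      intro z _ w _ h
      have h1 : a * z + b = a * w + b := h
      exact mul_left_cancel₀ ha (by linear_combination h1))]
  refine lintegral_congr fun z => ?_
  rw [(hd z).deriv]
  rfl

theorem rho_exp {β : ℝ} {w : ℂ} (h0 : w ≠ 0) (h1 : w ≠ 1) :
    rho β w = Real.exp (-(2 * β) * Real.log ‖w‖ + -(2 * β) * Real.log ‖w - 1‖) := by
  unfold rho
  rw [Real.rpow_def_of_pos (norm_pos_iff.2 h0),
    Real.rpow_def_of_pos (norm_pos_iff.2 (sub_ne_zero.2 h1)), ← Real.exp_add]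
  congr 1
  ring

/-- The mean value inequality for the density. -/
theorem pt_mean {β : ℝ} {a b : ℂ → ℂ} {τ ρ : ℝ} (hρ : 0 < ρ) (hρτ : ρ < τ)
    (ha : DifferentiableOn ℂ a (ball 0 τ)) (hb : DifferentiableOn ℂ b (ball 0 τ))
    (ha0 : ∀ t ∈ ball (0 : ℂ) τ, a t ≠ 0) {z : ℂ} (h0 : ∀ t ∈ ball (0 : ℂ) τ, a t * z + b t ≠ 0)
    (h1 : ∀ t ∈ ball (0 : ℂ) τ, a t * z + b t ≠ 1) :
    (Continuous fun θ : ℝ => kk β (a (circleMap 0 ρ θ)) (b (circleMap 0 ρ θ)) z) ∧
    2 * Real.pi * kk β (a 0) (b 0) z ≤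
      ∫ θ in (0 : ℝ)..(2 * Real.pi), kk β (a (circleMap 0 ρ θ)) (b (circleMap 0 ρ θ)) z := by
  have hτ : 0 < τ := hρ.trans hρτ
  have h1' : ∀ t ∈ ball (0 : ℂ) τ, a t * z + b t - 1 ≠ 0 := fun t ht => sub_ne_zero.2 (h1 t ht)
  have hd2 : DifferentiableOn ℂ (fun t => a t * z + b t) (ball 0 τ) := (ha.mul_const z).add hb
  have hd3 : DifferentiableOn ℂ (fun t => a t * z + b t - 1) (ball 0 τ) := hd2.sub_const 1
  have c1 := log_cont hρ hρτ ha ha0
  have c2 := log_cont hρ hρτ hd2 h0
  have c3 := log_cont hρ hρτ hd3 h1'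
  have i1 := circ_log hρ hρτ ha ha0
  have i2 := circ_log hρ hρτ hd2 h0
  have i3 := circ_log hρ hρτ hd3 h1'
  set F : ℂ → ℝ := fun t => 2 * Real.log ‖a t‖ + (-(2 * β) * Real.log ‖a t * z + b t‖ +
    -(2 * β) * Real.log ‖a t * z + b t - 1‖) with hF
  have hk : ∀ t ∈ ball (0 : ℂ) τ, kk β (a t) (b t) z = Real.exp (F t) := by
    intro t ht
    unfold kk
    have e2 : Real.exp (2 * Real.log ‖a t‖) = ‖a t‖ ^ 2 := by
      rw [show (2 : ℝ) * Real.log ‖a t‖ = Real.log ‖a t‖ + Real.log ‖a t‖ by ring, Real.exp_add,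
        Real.exp_log (norm_pos_iff.2 (ha0 t ht))]
      ring
    rw [rho_exp (h0 t ht) (h1 t ht), hF]
    simp only
    rw [Real.exp_add (2 * Real.log ‖a t‖), e2]
  have hFc : Continuous fun θ : ℝ => F (circleMap 0 ρ θ) := by
    simp only [hF]
    exact (c1.const_mul 2).add ((c2.const_mul _).add (c3.const_mul _))
  have hkc : (fun θ : ℝ => kk β (a (circleMap 0 ρ θ)) (b (circleMap 0 ρ θ)) z) =
      fun θ : ℝ => Real.exp (F (circleMap 0 ρ θ)) := by
    funext θ
    exact hk _ (circ_mem hρ hρτ θ)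
  have hiF : ∫ θ in (0 : ℝ)..(2 * Real.pi), F (circleMap 0 ρ θ) = 2 * Real.pi * F 0 := by
    have j1 : IntervalIntegrable (fun θ : ℝ => 2 * Real.log ‖a (circleMap 0 ρ θ)‖) volume 0
        (2 * Real.pi) := (c1.const_mul 2).intervalIntegrable _ _
    have j2 : IntervalIntegrable (fun θ : ℝ => -(2 * β) *
        Real.log ‖a (circleMap 0 ρ θ) * z + b (circleMap 0 ρ θ)‖) volume 0
        (2 * Real.pi) := (c2.const_mul _).intervalIntegrable _ _
    have j3 : IntervalIntegrable (fun θ : ℝ => -(2 * β) *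
        Real.log ‖a (circleMap 0 ρ θ) * z + b (circleMap 0 ρ θ) - 1‖) volume 0
        (2 * Real.pi) := (c3.const_mul _).intervalIntegrable _ _
    have j23 : IntervalIntegrable (fun θ : ℝ => -(2 * β) *
        Real.log ‖a (circleMap 0 ρ θ) * z + b (circleMap 0 ρ θ)‖ + -(2 * β) *
        Real.log ‖a (circleMap 0 ρ θ) * z + b (circleMap 0 ρ θ) - 1‖) volume 0
        (2 * Real.pi) := j2.add j3
    simp only [hF]
    rw [intervalIntegral.integral_add j1 j23, intervalIntegral.integral_add j2 j3,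
      intervalIntegral.integral_const_mul, intervalIntegral.integral_const_mul,
      intervalIntegral.integral_const_mul, i1, i2, i3]
    ring
  refine ⟨by rw [hkc]; exact Real.continuous_exp.comp hFc, ?_⟩
  rw [hkc, hk 0 (mem_ball_self hτ)]
  have hcr : Continuous fun θ : ℝ => Real.exp (F 0) * (1 + (F (circleMap 0 ρ θ) - F 0)) :=
    continuous_const.mul (continuous_const.add (hFc.sub continuous_const))
  have hmono : ∫ θ in (0 : ℝ)..(2 * Real.pi), Real.exp (F 0) * (1 + (F (circleMap 0 ρ θ) - F 0)) ≤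
      ∫ θ in (0 : ℝ)..(2 * Real.pi), Real.exp (F (circleMap 0 ρ θ)) := by
    apply intervalIntegral.integral_mono_on (by positivity) (hcr.intervalIntegrable _ _)
      ((Real.continuous_exp.comp hFc).intervalIntegrable _ _)
    intro θ _
    have h2 := Real.add_one_le_exp (F (circleMap 0 ρ θ) - F 0)
    have h3 : Real.exp (F (circleMap 0 ρ θ)) =
        Real.exp (F 0) * Real.exp (F (circleMap 0 ρ θ) - F 0) := by
      rw [← Real.exp_add]
      congr 1
      ring
    change Real.exp (F 0) * (1 + (F (circleMap 0 ρ θ) - F 0)) ≤ Real.exp (F (circleMap 0 ρ θ))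
    rw [h3]
    exact mul_le_mul_of_nonneg_left (by linarith) (Real.exp_pos _).le
  refine le_trans (le_of_eq ?_) hmono
  have hi1 : IntervalIntegrable (fun _ : ℝ => (1 : ℝ)) volume 0 (2 * Real.pi) :=
    continuous_const.intervalIntegrable _ _
  have hi2 : IntervalIntegrable (fun θ : ℝ => F (circleMap 0 ρ θ) - F 0) volume 0 (2 * Real.pi) :=
    (hFc.sub continuous_const).intervalIntegrable _ _
  have hi3 : IntervalIntegrable (fun _ : ℝ => F 0) volume 0 (2 * Real.pi) :=
    continuous_const.intervalIntegrable _ _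
  rw [intervalIntegral.integral_const_mul, intervalIntegral.integral_add hi1 hi2,
    intervalIntegral.integral_sub (hFc.intervalIntegrable _ _) hi3, hiF,
    intervalIntegral.integral_const, intervalIntegral.integral_const, smul_eq_mul, smul_eq_mul]
  ring

/-- Convergence of the integrals over any set if the total mass is constant. -/
theorem scheffe {k : ℕ → ℂ → ENNReal} {k₀ : ℂ → ENNReal} {M : ENNReal} (hM : M ≠ ⊤)
    (hk : ∀ n, Measurable (k n))
    (ht : ∀ᵐ z : ℂ, Tendsto (fun n => k n z) atTop (𝓝 (k₀ z)))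
    (hm : ∀ n, ∫⁻ z, k n z = M) (hm₀ : ∫⁻ z, k₀ z = M) {N : Set ℂ} (hN : MeasurableSet N) :
    Tendsto (fun n => ∫⁻ z in N, k n z) atTop (𝓝 (∫⁻ z in N, k₀ z)) := by
  have hf : ∀ E : Set ℂ, ∫⁻ z in E, k₀ z ≤ liminf (fun n => ∫⁻ z in E, k n z) atTop := by
    intro E
    have h1 : ∫⁻ z in E, k₀ z = ∫⁻ z in E, liminf (fun n => k n z) atTop := by
      refine lintegral_congr_ae ?_
      filter_upwards [ae_restrict_of_ae ht] with z hz
      exact hz.liminf_eq.symm
    rw [h1]
    exact lintegral_liminf_le hk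
  have hs : ∀ n, ∫⁻ z in N, k n z = M - ∫⁻ z in Nᶜ, k n z := by
    intro n
    have h1 := lintegral_add_compl (μ := (volume : Measure ℂ)) (k n) hN
    rw [hm n] at h1
    rw [← h1]
    refine (ENNReal.add_sub_cancel_right ?_).symm
    refine ne_top_of_le_ne_top hM ?_
    rw [← h1]
    exact le_add_self
  have hs₀ : ∫⁻ z in N, k₀ z = M - ∫⁻ z in Nᶜ, k₀ z := by
    have h1 := lintegral_add_compl (μ := (volume : Measure ℂ)) k₀ hN
    rw [hm₀] at h1
    rw [← h1]
    refine (ENNReal.add_sub_cancel_right ?_).symm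
    refine ne_top_of_le_ne_top hM ?_
    rw [← h1]
    exact le_add_self
  refine tendsto_of_le_liminf_of_limsup_le (hf N) ?_
  have h2 : limsup (fun n => ∫⁻ z in N, k n z) atTop =
      M - liminf (fun n => ∫⁻ z in Nᶜ, k n z) atTop := by
    rw [show (fun n => ∫⁻ z in N, k n z) = fun n => M - ∫⁻ z in Nᶜ, k n z from funext hs]
    exact ENNReal.limsup_const_sub _ _ hM
  rw [h2, hs₀]
  exact tsub_le_tsub_left (hf Nᶜ) M

theorem kk_meas (β : ℝ) (a b : ℂ) : Measurable fun z => ENNReal.ofReal (kk β a b z) := by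
  unfold kk
  exact ((measurable_const.mul ((Pool.Agent.W342.RE.measurable_rho β).comp
    ((measurable_const.mul measurable_id).add measurable_const)))).ennreal_ofReal

theorem kk_total {β : ℝ} {a : ℂ} (b : ℂ) (ha : a ≠ 0) :
    ∫⁻ z, ENNReal.ofReal (kk β a b z) = mu β univ := by
  have h := aff_area (β := β) MeasurableSet.univ b ha
  rw [Measure.restrict_univ] at h
  rw [← h]
  congr 1
  rw [image_univ]
  ext w
  simp only [mem_range, mem_univ, iff_true]
  exact ⟨(w - b) / a, by field_simp; ring⟩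

/-- Continuity of the area of affine images. -/
theorem area_cont {X : Type} [TopologicalSpace X] [FirstCountableTopology X] {β : ℝ}
    (hfin : mu β univ < ⊤)
    {N : Set ℂ} (hN : MeasurableSet N) {a b : X → ℂ} {C : Set X} (ha : ContinuousOn a C)
    (hb : ContinuousOn b C) (ha0 : ∀ v ∈ C, a v ≠ 0) :
    ContinuousOn (fun v => (mu β ((fun z => a v * z + b v) '' N)).toReal) C := by
  intro v₀ hv₀
  have key : Tendsto (fun v => mu β ((fun z => a v * z + b v) '' N)) (𝓝[C] v₀)
      (𝓝 (mu β ((fun z => a v₀ * z + b v₀) '' N))) := by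
    rw [tendsto_iff_seq_tendsto]
    intro s hs
    have hsC : ∀ᶠ n in atTop, s n ∈ C := by
      have h1 : ∀ᶠ v in 𝓝[C] v₀, v ∈ C := eventually_mem_nhdsWithin
      exact hs.eventually h1
    obtain ⟨n₀, hn₀⟩ := eventually_atTop.1 hsC
    have hs' : Tendsto (fun n => s (n + n₀)) atTop (𝓝[C] v₀) := hs.comp (tendsto_add_atTop_nat n₀)
    have hsC' : ∀ n, s (n + n₀) ∈ C := fun n => hn₀ _ (Nat.le_add_left _ _)
    refine (tendsto_add_atTop_iff_nat n₀).1 ?_
    have hat : Tendsto (fun n => a (s (n + n₀))) atTop (𝓝 (a v₀)) := (ha v₀ hv₀).tendsto.comp hs'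
    have hbt : Tendsto (fun n => b (s (n + n₀))) atTop (𝓝 (b v₀)) := (hb v₀ hv₀).tendsto.comp hs'
    have h2 := scheffe (k := fun n z => ENNReal.ofReal (kk β (a (s (n + n₀))) (b (s (n + n₀))) z))
      (k₀ := fun z => ENNReal.ofReal (kk β (a v₀) (b v₀) z)) hfin.ne (fun n => kk_meas _ _ _) ?_ (fun n => kk_total _ (ha0 _ (hsC' n))) (kk_total _ (ha0 _ hv₀)) hN
    · simp only [Function.comp_def]
      rw [aff_area hN _ (ha0 v₀ hv₀)]
      refine h2.congr fun n => ?_
      rw [aff_area hN _ (ha0 _ (hsC' n))]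
    · have h3 : ∀ᵐ z : ℂ, z ∉ ({(0 - b v₀) / a v₀, (1 - b v₀) / a v₀} : Set ℂ) := by
        rw [ae_iff]
        simp only [not_not]
        exact (toFinite ({(0 - b v₀) / a v₀, (1 - b v₀) / a v₀} : Set ℂ)).measure_zero _
      filter_upwards [h3] with z hz
      have ha' := ha0 v₀ hv₀
      have hz0 : a v₀ * z + b v₀ ≠ 0 := by
        intro h
        apply hz
        left
        rw [eq_div_iff ha']
        linear_combination h
      have hz1 : a v₀ * z + b v₀ ≠ 1 := by
        intro h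
        apply hz
        right
        rw [mem_singleton_iff, eq_div_iff ha']
        linear_combination h
      apply ENNReal.tendsto_ofReal
      unfold kk
      refine (hat.norm.pow 2).mul ?_
      exact (Pool.Agent.W342.RE.rho_contAt hz0 hz1).tendsto.comp
        ((hat.mul tendsto_const_nhds).add hbt)
  exact (ENNReal.tendsto_toReal (measure_ne_top_of_subset (subset_univ _) hfin.ne)).comp key

/-- The area of affine images is plurisubharmonic as long as the images avoid the base points. -/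
theorem area_psh {E : Type} [NormedAddCommGroup E] [NormedSpace ℂ E] {β : ℝ}
    (hfin : mu β univ < ⊤) {N : Set ℂ} (hN : MeasurableSet N) {a b : E → ℂ} {D : Set E}
    (ha : DifferentiableOn ℂ a D) (hb : DifferentiableOn ℂ b D) (ha0 : ∀ v ∈ D, a v ≠ 0)
    (hav : ∀ v ∈ D, ∀ z ∈ N, a v * z + b v ≠ 0 ∧ a v * z + b v ≠ 1) :
    PSH (fun v => (mu β ((fun z => a v * z + b v) '' N)).toReal) D := by
  refine ⟨area_cont hfin hN ha.continuousOn hb.continuousOn ha0, ?_⟩
  intro τ γ hγ hγD ρ hρ hρτ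
  have hτ : 0 < τ := hρ.trans hρτ
  have had : DifferentiableOn ℂ (fun t => a (γ t)) (ball 0 τ) := ha.comp hγ hγD
  have hbd : DifferentiableOn ℂ (fun t => b (γ t)) (ball 0 τ) := hb.comp hγ hγD
  have hpt : ∀ z ∈ N, (Continuous fun θ : ℝ => kk β (a (γ (circleMap 0 ρ θ)))
      (b (γ (circleMap 0 ρ θ))) z) ∧ 2 * Real.pi * kk β (a (γ 0)) (b (γ 0)) z ≤
      ∫ θ in (0 : ℝ)..(2 * Real.pi), kk β (a (γ (circleMap 0 ρ θ))) (b (γ (circleMap 0 ρ θ))) z :=
    fun z hz => pt_mean hρ hρτ had hbd (fun t ht => ha0 _ (hγD t ht))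
      (fun t ht => (hav _ (hγD t ht) z hz).1) (fun t ht => (hav _ (hγD t ht) z hz).2)
  have hne : ∀ X : Set ℂ, mu β X ≠ ⊤ := fun X => measure_ne_top_of_subset (subset_univ _) hfin.ne
  have hmem : ∀ θ : ℝ, γ (circleMap 0 ρ θ) ∈ D := fun θ => hγD _ (circ_mem hρ hρτ θ)
  -- continuity in `θ`
  have hcθ : Continuous fun θ : ℝ =>
      (mu β ((fun z => a (γ (circleMap 0 ρ θ)) * z + b (γ (circleMap 0 ρ θ))) '' N)).toReal := by
    have h1 := area_cont hfin hN ha.continuousOn hb.continuousOn ha0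
    have h2 : ContinuousOn (fun t : ℂ =>
        (mu β ((fun z => a (γ t) * z + b (γ t)) '' N)).toReal) (ball 0 τ) :=
      h1.comp hγ.continuousOn hγD
    exact h2.comp_continuous (continuous_circleMap 0 ρ) (circ_mem hρ hρτ)
  -- joint measurability
  have hac : Continuous fun θ : ℝ => a (γ (circleMap 0 ρ θ)) := circ_cont hρ hρτ had.continuousOn
  have hbc : Continuous fun θ : ℝ => b (γ (circleMap 0 ρ θ)) := circ_cont hρ hρτ hbd.continuousOn
  have hjm : Measurable (Function.uncurry fun (z : ℂ) (θ : ℝ) =>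
      ENNReal.ofReal (kk β (a (γ (circleMap 0 ρ θ))) (b (γ (circleMap 0 ρ θ))) z)) := by
    unfold kk Function.uncurry
    have h1 : Measurable fun p : ℂ × ℝ => a (γ (circleMap 0 ρ p.2)) :=
      hac.measurable.comp measurable_snd
    have h2 : Measurable fun p : ℂ × ℝ => b (γ (circleMap 0 ρ p.2)) :=
      hbc.measurable.comp measurable_snd
    exact ((h1.norm.pow_const 2).mul ((Pool.Agent.W342.RE.measurable_rho β).comp
      ((h1.mul measurable_fst).add h2))).ennreal_ofReal
  have hfub : ∫⁻ z in N, ∫⁻ θ in Ioc (0 : ℝ) (2 * Real.pi),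
      ENNReal.ofReal (kk β (a (γ (circleMap 0 ρ θ))) (b (γ (circleMap 0 ρ θ))) z) =
      ∫⁻ θ in Ioc (0 : ℝ) (2 * Real.pi),
        mu β ((fun z => a (γ (circleMap 0 ρ θ)) * z + b (γ (circleMap 0 ρ θ))) '' N) := by
    rw [lintegral_lintegral_swap hjm.aemeasurable]
    refine lintegral_congr fun θ => ?_
    rw [aff_area hN _ (ha0 _ (hmem θ))]
  have hstep : ENNReal.ofReal (2 * Real.pi) * mu β ((fun z => a (γ 0) * z + b (γ 0)) '' N) ≤
      ∫⁻ z in N, ∫⁻ θ in Ioc (0 : ℝ) (2 * Real.pi),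
      ENNReal.ofReal (kk β (a (γ (circleMap 0 ρ θ))) (b (γ (circleMap 0 ρ θ))) z) := by
    rw [aff_area hN _ (ha0 _ (hγD 0 (mem_ball_self hτ))),
      ← lintegral_const_mul' _ _ ENNReal.ofReal_ne_top]
    refine setLIntegral_mono' hN fun z hz => ?_
    obtain ⟨hc, hi⟩ := hpt z hz
    rw [← ENNReal.ofReal_mul (by positivity)]
    refine (ENNReal.ofReal_le_ofReal hi).trans (le_of_eq ?_)
    rw [intervalIntegral.integral_of_le (by positivity)]
    exact ofReal_integral_eq_lintegral_ofReal (hc.integrableOn_Ioc)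
      (Eventually.of_forall fun θ => kk_nonneg _ _ _ _)
  have hfinal := hstep.trans_eq hfub
  have hconv : ∫⁻ θ in Ioc (0 : ℝ) (2 * Real.pi),
        mu β ((fun z => a (γ (circleMap 0 ρ θ)) * z + b (γ (circleMap 0 ρ θ))) '' N) =
      ENNReal.ofReal (∫ θ in (0 : ℝ)..(2 * Real.pi),
        (mu β ((fun z => a (γ (circleMap 0 ρ θ)) * z + b (γ (circleMap 0 ρ θ))) '' N)).toReal) := by
    rw [intervalIntegral.integral_of_le (by positivity),
      ofReal_integral_eq_lintegral_ofReal hcθ.integrableOn_Ioc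
      (Eventually.of_forall fun θ => ENNReal.toReal_nonneg)]
    refine lintegral_congr fun θ => ?_
    rw [ENNReal.ofReal_toReal (hne _)]
  rw [hconv, ← ENNReal.ofReal_toReal (hne ((fun z => a (γ 0) * z + b (γ 0)) '' N)),
    ← ENNReal.ofReal_mul (by positivity)] at hfinal
  refine (ENNReal.ofReal_le_ofReal_iff ?_).1 hfinal
  exact intervalIntegral.integral_nonneg (by positivity) fun θ _ => ENNReal.toReal_nonneg

end Pool.Agent.Helper38.AM
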