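import Mathlib
import Pool.Agent.Helper38.AM.Sel

/-! The parameters of the universal family. -/

set_option autoImplicit false

open Topology Filter Metric Set MeasureTheory Polynomial
open Pool.Agent.H790R3.RB (CV hF cr ND wr rt Ix yx yc sp HypTop Attd Sink pol PQ SP)
open Pool.Agent.W757.RD
open Pool.Agent.W757.QR (nu de)
open scoped OnePoint

namespace Pool.Agent.Helper38.AM

/-- the numerator with parameter `u` -/
noncomputable def num (d : ℕ) (u : Fin (2 * d) → ℂ) : Polynomial ℂ :=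
  X ^ d + ∑ j : Fin d, C (u ⟨(j : ℕ), by omega⟩) * X ^ (j : ℕ)

/-- the denominator with parameter `u` -/
noncomputable def den (d : ℕ) (u : Fin (2 * d) → ℂ) : Polynomial ℂ :=
  ∑ j : Fin d, C (u ⟨d + (j : ℕ), by omega⟩) * X ^ (j : ℕ)

theorem fam_num {d : ℕ} (u : Fin (2 * d) → ℂ) : pol (fam u) 0 = num d u := by
  unfold pol num
  rw [Fin.sum_univ_castSucc, add_comm]
  congr 1
  · have h : fam u (0, Fin.last d) = 1 := by
      unfold fam
      simp
    rw [h]
    simp [Polynomial.monomial_one_right_eq_X_pow]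
  · refine Finset.sum_congr rfl fun j _ => ?_
    have h : fam u (0, j.castSucc) = u ⟨(j : ℕ), by omega⟩ := by
      unfold fam
      simp
    rw [h, C_mul_X_pow_eq_monomial]
    rfl

theorem fam_den {d : ℕ} (u : Fin (2 * d) → ℂ) : pol (fam u) 1 = den d u := by
  unfold pol den
  rw [Fin.sum_univ_castSucc]
  have h0 : fam u (1, Fin.last d) = 0 := by
    unfold fam
    simp
  rw [h0, monomial_zero_right, add_zero]
  refine Finset.sum_congr rfl fun j _ => ?_
  have h : fam u (1, j.castSucc) = u ⟨d + (j : ℕ), by omega⟩ := by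
    unfold fam
    simp
  rw [h, C_mul_X_pow_eq_monomial]
  rfl

theorem wr_top {e : ℕ} (x : CV (e + 2)) (h0 : x (0, Fin.last (e + 2)) = 1)
    (h1 : x (1, Fin.last (e + 2)) = 0) :
    wr x (1, 0) = ((e + 2 : ℕ) : ℂ) * x (1, (Fin.last (e + 1)).castSucc) := by
  have s1 : (∑ j : Fin (e + 2 + 1), x (0, j) * (((j : ℕ) : ℂ) * (1 : ℂ) ^ ((j : ℕ) - 1) *
      (0 : ℂ) ^ (e + 2 - (j : ℕ)))) = ((e + 2 : ℕ) : ℂ) := by
    rw [Fin.sum_univ_castSucc, Finset.sum_eq_zero]
    · rw [h0]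
      simp
    · intro j _
      have : e + 2 - (j.castSucc : ℕ) ≠ 0 := by
        have := j.2
        simp only [Fin.val_castSucc]; omega
      rw [zero_pow this, mul_zero, mul_zero]
  have s2 : (∑ j : Fin (e + 2 + 1), x (1, j) * (((e + 2 - (j : ℕ) : ℕ) : ℂ) * (1 : ℂ) ^ (j : ℕ) *
      (0 : ℂ) ^ (e + 2 - (j : ℕ) - 1))) = x (1, (Fin.last (e + 1)).castSucc) := by
    rw [Fin.sum_univ_castSucc, Fin.sum_univ_castSucc, Finset.sum_eq_zero]
    · simp
    · intro j _
      have : e + 2 - (j.castSucc.castSucc : ℕ) - 1 ≠ 0 := by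
        have := j.2
        simp only [Fin.val_castSucc]; omega
      rw [zero_pow this, mul_zero, mul_zero]
  have s4 : (∑ j : Fin (e + 2 + 1), x (1, j) * (((j : ℕ) : ℂ) * (1 : ℂ) ^ ((j : ℕ) - 1) *
      (0 : ℂ) ^ (e + 2 - (j : ℕ)))) = 0 := by
    apply Finset.sum_eq_zero
    intro j _
    induction j using Fin.lastCases with
    | last => rw [h1, zero_mul]
    | cast j =>
      have : e + 2 - (j.castSucc : ℕ) ≠ 0 := by
        have := j.2
        simp only [Fin.val_castSucc]; omega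
      rw [zero_pow this, mul_zero, mul_zero]
  unfold wr
  rw [s1, s2, s4, mul_zero, sub_zero]

theorem wr_fam {d : ℕ} (hd : 2 ≤ d) (u : Fin (2 * d) → ℂ) :
    wr (fam u) (1, 0) = (d : ℂ) * (den d u).coeff (d - 1) := by
  obtain ⟨e, rfl⟩ : ∃ e, d = e + 2 := ⟨d - 2, by omega⟩
  rw [wr_top (fam u) (by unfold fam; simp) (by unfold fam; simp)]
  congr 1
  rw [← fam_den]
  have h := Pool.Agent.H790R3.RB.PQ.pol_coeff (fam u) 1 ((Fin.last (e + 1)).castSucc)
  rw [← h]
  simp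

theorem nd_fam {d : ℕ} (hd : 2 ≤ d) (u : Fin (2 * d) → ℂ) :
    ND (fam u) ↔ IsCoprime (num d u) (den d u) := by
  have hd1 : 1 ≤ d := by omega
  obtain ⟨h1, h2⟩ := PQ SP d hd1
  constructor
  · intro h
    have := (h1 (fam u) h).1
    rwa [fam_num, fam_den] at this
  · intro h
    have hx : (fam u) (0, Fin.last d) = 1 := by unfold fam; simp
    have hdeg0 : (pol (fam u) 0).natDegree = d := by
      refine le_antisymm (Pool.Agent.H790R3.RB.PQ.pol_natDegree (fam u) 0)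
        (le_natDegree_of_ne_zero ?_)
      have := Pool.Agent.H790R3.RB.PQ.pol_coeff (fam u) 0 (Fin.last d)
      rw [Fin.val_last, hx] at this
      rw [this]
      exact one_ne_zero
    have hdeg1 := Pool.Agent.H790R3.RB.PQ.pol_natDegree (fam u) 1
    obtain ⟨x, hxn, hx0, hx1, -⟩ := h2 (pol (fam u) 0) (pol (fam u) 1) (by
      rw [fam_num, fam_den]; exact h) (by rw [hdeg0]; exact max_eq_left hdeg1)
    have hxe : x = fam u := by
      funext ⟨i, j⟩
      have e1 := Pool.Agent.H790R3.RB.PQ.pol_coeff x i j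
      have e2 := Pool.Agent.H790R3.RB.PQ.pol_coeff (fam u) i j
      rw [← e1, ← e2]
      fin_cases i
      · change (pol x 0).coeff _ = (pol (fam u) 0).coeff _
        rw [hx0]
      · change (pol x 1).coeff _ = (pol (fam u) 1).coeff _
        rw [hx1]
    rw [← hxe]
    exact hxn

/-- The sphere map with parameter `u`. -/
theorem sp_fam {d : ℕ} (hd : 2 ≤ d) (u : Fin (2 * d) → ℂ) (h : ND (fam u)) :
    Continuous (sp (fam u)) ∧ (∀ z : ℂ, (den d u).eval z ≠ 0 →
      sp (fam u) (z : OnePoint ℂ) = (((num d u).eval z / (den d u).eval z : ℂ) : OnePoint ℂ)) ∧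
    ∀ f : OnePoint ℂ → OnePoint ℂ, Continuous f → (∀ z : ℂ, (den d u).eval z ≠ 0 →
      f (z : OnePoint ℂ) = (((num d u).eval z / (den d u).eval z : ℂ) : OnePoint ℂ)) →
      f = sp (fam u) := by
  have hd1 : 1 ≤ d := by omega
  obtain ⟨h1, h2⟩ := PQ SP d hd1
  obtain ⟨hc, hm, hco, -, hev⟩ := h1 (fam u) h
  refine ⟨(SP d (fam u) hd1 h).1, ?_, ?_⟩
  · rw [fam_num, fam_den] at hev
    exact hev
  · intro f hf hfe
    obtain ⟨x, hxn, hx0, hx1, hxf⟩ := h2 (pol (fam u) 0) (pol (fam u) 1) hc hm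
    have hxe : x = fam u := by
      funext ⟨i, j⟩
      have e1 := Pool.Agent.H790R3.RB.PQ.pol_coeff x i j
      have e2 := Pool.Agent.H790R3.RB.PQ.pol_coeff (fam u) i j
      rw [← e1, ← e2]
      fin_cases i
      · change (pol x 0).coeff _ = (pol (fam u) 0).coeff _
        rw [hx0]
      · change (pol x 1).coeff _ = (pol (fam u) 1).coeff _
        rw [hx1]
    rw [← hxe]
    apply hxf f hf
    rw [fam_num, fam_den]
    exact hfe

theorem U₀_iff {d : ℕ} (hd : 2 ≤ d) (u : Fin (2 * d) → ℂ) :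
    u ∈ U₀ d ↔ IsCoprime (num d u) (den d u) ∧ (den d u).coeff (d - 1) ≠ 0 := by
  have hd0 : (d : ℂ) ≠ 0 := by
    have : d ≠ 0 := by omega
    exact_mod_cast this
  unfold U₀
  rw [mem_ofPred_eq, nd_fam hd, wr_fam hd]
  constructor
  · rintro ⟨h1, h2⟩
    exact ⟨h1, (mul_ne_zero_iff.1 h2).2⟩
  · rintro ⟨h1, h2⟩
    exact ⟨h1, mul_ne_zero hd0 h2⟩

theorem mu_eq (β : ℝ) (E : Set ℂ) :
    mu β E = ∫⁻ z in E, ENNReal.ofReal (‖z‖ ^ (-(2 * β)) * ‖z - 1‖ ^ (-(2 * β))) := by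
  unfold mu
  rw [withDensity_apply']
  rfl

end Pool.Agent.Helper38.AM
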